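import Pool.Agent.Lib.MP_305fdd_al.F8.StmNT

/-!
# [F8N RL] finite free algebras over the `p`-adic integers are limits
-/

set_option autoImplicit false

namespace Pool.Agent.F8

open Pool.Agent.MP_305fdd_al Pool.Agent.Lib.MP_305fdd_al Pool.Agent.F2X

noncomputable section

section

variable {p : ℕ} [Fact p.Prime] {R : Type} [CommRing R] [Algebra ℤ_[p] R]
  {J : Type} [Fintype J] (b : Module.Basis J ℤ_[p] R)

/-- membership in the ideal generated by `p ^ k`, in coordinates -/
private theorem RL_mem (k : ℕ) (x : R) :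
    x ∈ Ideal.span {(p : R) ^ k} ↔ ∀ i, PadicInt.toZModPow k (b.repr x i) = 0 := by
  rw [Ideal.mem_span_singleton']
  have hp : (p : R) ^ k = algebraMap ℤ_[p] R ((p : ℤ_[p]) ^ k) := by
    rw [map_pow, map_natCast]
  constructor
  · rintro ⟨a, rfl⟩ i
    rw [mul_comm, hp, ← Algebra.smul_def, map_smul, Finsupp.smul_apply, smul_eq_mul,
      ← RingHom.mem_ker, PadicInt.ker_toZModPow]
    exact Ideal.mul_mem_right _ _ (Ideal.mem_span_singleton_self _)
  · intro h
    have h' : ∀ i, ∃ c, c * (p : ℤ_[p]) ^ k = b.repr x i := by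
      intro i
      have := h i
      rw [← RingHom.mem_ker, PadicInt.ker_toZModPow, Ideal.mem_span_singleton'] at this
      exact this
    choose c hc using h'
    refine ⟨∑ i, c i • b i, ?_⟩
    rw [Finset.sum_mul]
    conv_rhs => rw [← b.sum_repr x]
    refine Finset.sum_congr rfl fun i _ => ?_
    rw [← hc i, hp, mul_smul, mul_comm, ← Algebra.smul_def, smul_comm]

end

/-- [F8N RL] -/
theorem p_RL (hlz : S_lz) : S_RL := by
  intro p _ R _ _ _ _
  obtain ⟨J, hJ, ⟨b⟩⟩ : ∃ (J : Type) (_ : Fintype J), Nonempty (Module.Basis J ℤ_[p] R) :=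
    ⟨Fin (Module.finrank ℤ_[p] R), inferInstance, ⟨Module.finBasis ℤ_[p] R⟩⟩
  have hle : ∀ k, Ideal.span {(p : R) ^ (k + 1)} ≤ Ideal.span {(p : R) ^ k} := fun k =>
    Ideal.span_singleton_le_span_singleton.2 (pow_dvd_pow _ (Nat.le_succ k))
  have hker : ∀ k, RingHom.ker (PadicInt.toZModPow (p := p) k) ≤
      RingHom.ker ((Ideal.Quotient.mk (Ideal.span {(p : R) ^ k})).comp (algebraMap ℤ_[p] R)) := by
    intro k z hz
    rw [PadicInt.ker_toZModPow, Ideal.mem_span_singleton'] at hz
    obtain ⟨a, rfl⟩ := hz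
    rw [RingHom.mem_ker, RingHom.comp_apply, Ideal.Quotient.eq_zero_iff_mem, map_mul, map_pow,
      map_natCast]
    exact Ideal.mul_mem_left _ _ (Ideal.mem_span_singleton_self _)
  have hsurj : ∀ k, Function.Surjective (PadicInt.toZModPow (p := p) k) := fun k =>
    ZMod.ringHom_surjective _
  have hfk : ∀ k, ∃ f : ZMod (p ^ k) →+* R ⧸ Ideal.span {(p : R) ^ k},
      f.comp (PadicInt.toZModPow k) =
        (Ideal.Quotient.mk (Ideal.span {(p : R) ^ k})).comp (algebraMap ℤ_[p] R) := by
    intro k
    exact ⟨(PadicInt.toZModPow k).liftOfRightInverse _ (Function.rightInverse_surjInv (hsurj k))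
      ⟨_, hker k⟩, RingHom.liftOfRightInverse_comp _ _ _ _⟩
  choose fk hfk using hfk
  refine ⟨fun k => R ⧸ Ideal.span {(p : R) ^ k}, fun k => inferInstance,
    fun k => Ideal.Quotient.mk _, fun k => Ideal.Quotient.factor (hle k), fk, ?_, ?_, hfk, ?_⟩
  · refine ⟨fun k => ?_, fun x hx => ?_⟩
    · ext r
      rfl
    · have hr : ∀ k, ∃ r : R, Ideal.Quotient.mk (Ideal.span {(p : R) ^ k}) r = x k := fun k =>
        Ideal.Quotient.mk_surjective (x k)
      choose r hr using hr
      have hd : ∀ k, r (k + 1) - r k ∈ Ideal.span {(p : R) ^ k} := by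
        intro k
        rw [← Ideal.Quotient.eq, hr k, ← hx k, ← hr (k + 1)]
        rfl
      have hc : ∀ i : J, ∀ k, tz p k (PadicInt.toZModPow (k + 1) (b.repr (r (k + 1)) i)) =
          PadicInt.toZModPow k (b.repr (r k) i) := by
        intro i k
        have h1 := DFunLike.congr_fun ((hlz p).1 k) (b.repr (r (k + 1)) i)
        have h2 := (RL_mem b k _).1 (hd k) i
        rw [map_sub, Finsupp.sub_apply, map_sub, sub_eq_zero] at h2
        rw [← h2]
        exact h1
      have hy : ∀ i : J, ∃ y : ℤ_[p], ∀ k, PadicInt.toZModPow k y =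
          PadicInt.toZModPow k (b.repr (r k) i) := by
        intro i
        obtain ⟨y, hy, _⟩ := (hlz p).2 (fun k => PadicInt.toZModPow k (b.repr (r k) i)) (hc i)
        exact ⟨y, hy⟩
      choose y hy using hy
      refine ⟨∑ i, y i • b i, fun k => ?_, fun y' hy' => ?_⟩
      · rw [← hr k]
        show Ideal.Quotient.mk _ _ = _
        rw [Ideal.Quotient.eq, RL_mem b]
        intro i
        rw [map_sub, Finsupp.sub_apply, map_sub, b.repr_sum_self, hy i k, sub_self]
      · apply b.repr.injective
        ext1 i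
        rw [b.repr_sum_self]
        apply PadicInt.ext_of_toZModPow.1
        intro k
        have h1 : y' - r k ∈ Ideal.span {(p : R) ^ k} := by
          rw [← Ideal.Quotient.eq, hr k]
          exact hy' k
        have h2 := (RL_mem b k _).1 h1 i
        rw [map_sub, Finsupp.sub_apply, map_sub, sub_eq_zero] at h2
        rw [h2, hy i k]
  · intro k
    have hinj : Function.Injective (fun z : R ⧸ Ideal.span {(p : R) ^ k} =>
        fun i : J => PadicInt.toZModPow k (b.repr (Function.surjInv
          (Ideal.Quotient.mk_surjective (I := Ideal.span {(p : R) ^ k})) z) i)) := by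
      intro z z' h
      rw [← Function.surjInv_eq (Ideal.Quotient.mk_surjective (I := Ideal.span {(p : R) ^ k})) z,
        ← Function.surjInv_eq (Ideal.Quotient.mk_surjective (I := Ideal.span {(p : R) ^ k})) z',
        Ideal.Quotient.eq, RL_mem b]
      intro i
      rw [map_sub, Finsupp.sub_apply, map_sub, sub_eq_zero]
      exact congrFun h i
    exact Finite.of_injective _ hinj
  · intro k
    have hz : (tz p k).comp (PadicInt.toZModPow (k + 1)) = PadicInt.toZModPow k := (hlz p).1 k
    apply RingHom.ext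
    intro a
    obtain ⟨z, rfl⟩ := hsurj (k + 1) a
    have h1 : fk (k + 1) (PadicInt.toZModPow (k + 1) z) = Ideal.Quotient.mk _ (algebraMap _ _ z) :=
      DFunLike.congr_fun (hfk (k + 1)) z
    have h2 : fk k (PadicInt.toZModPow k z) = Ideal.Quotient.mk _ (algebraMap _ _ z) :=
      DFunLike.congr_fun (hfk k) z
    have h3 : tz p k (PadicInt.toZModPow (k + 1) z) = PadicInt.toZModPow k z :=
      DFunLike.congr_fun hz z
    rw [RingHom.comp_apply, RingHom.comp_apply, h1, h3, h2]
    rfl

end

end Pool.Agent.F8
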