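import Pool.Agent.Lib.MP_305fdd_al.F8.StmNT

/-!
# [F8N RR] integral elements lie in a good ring
-/

set_option autoImplicit false

namespace Pool.Agent.F8

open Pool.Agent.MP_305fdd_al Pool.Agent.Lib.MP_305fdd_al Pool.Agent.F2X

noncomputable section

/-- [F8N RR] -/
theorem p_RR (hRL : S_RL) : S_RR := by
  intro p _ b z hz
  have hmap : algebraMap ℤ_[p] (Fl p) = iz p := rfl
  have hint : ∀ x ∈ Set.range z, IsIntegral ℤ_[p] x := by
    rintro x ⟨i, rfl⟩
    have := hz i
    rw [← hmap] at this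
    exact this
  have hinj : Function.Injective (algebraMap ℤ_[p] (Fl p)) := by
    rw [hmap]
    exact (algebraMap ℚ_[p] (Fl p)).injective.comp Subtype.val_injective
  obtain ⟨A, hA⟩ : ∃ A : Subalgebra ℤ_[p] (Fl p), A = Algebra.adjoin ℤ_[p] (Set.range z) :=
    ⟨_, rfl⟩
  haveI hfin : Module.Finite ℤ_[p] A := by
    rw [hA]
    exact Module.Finite.of_fg (fg_adjoin_of_finite (Set.finite_range z) hint)
  haveI hft : FaithfulSMul ℤ_[p] (Fl p) := (faithfulSMul_iff_algebraMap_injective _ _).2 hinj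
  haveI htf : Module.IsTorsionFree ℤ_[p] A := inferInstance
  haveI hfree : Module.Free ℤ_[p] A := Module.free_of_finite_type_torsion_free'
  obtain ⟨Rk, iRk, π, q, fk, hlim, hf, hck, hcq⟩ := hRL p A
  refine ⟨A, inferInstance, A.val.toRingHom, algebraMap ℤ_[p] A, Rk, iRk, π, q, fk,
    ⟨Subtype.val_injective, hlim, hf, ?_, hck, hcq⟩, fun i => ?_⟩
  · rw [← hmap]
    rfl
  · have hm : z i ∈ A := by
      rw [hA]
      exact Algebra.subset_adjoin ⟨i, rfl⟩
    exact ⟨⟨z i, hm⟩, rfl⟩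

end

end Pool.Agent.F8
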