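import Pool.Agent.Lib.MP_305fdd_al.F8.StmNA

/-!
# MP_305fdd_al, cyclic covers of the figure-eight knot complement, piece [F8N A1N]: existence of `σ`
-/

set_option autoImplicit false

namespace Pool.Agent.F8

open Pool.Agent.MP_305fdd_al Pool.Agent.Lib.MP_305fdd_al Pool.Agent.F2X
open scoped QuadraticAlgebra

private lemma A1N_ext (p : ℕ) [Fact p.Prime] (x y : Qd 3 ℤ_[p])
    (h : ∀ k, Qd.map 3 (PadicInt.toZModPow k) x = Qd.map 3 (PadicInt.toZModPow k) y) : x = y := by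
  apply QuadraticAlgebra.ext
  · rw [← PadicInt.ext_of_toZModPow]
    intro k
    exact congrArg QuadraticAlgebra.re (h k)
  · rw [← PadicInt.ext_of_toZModPow]
    intro k
    exact congrArg QuadraticAlgebra.im (h k)

/-- the scalar parts of the matched representations -/
private lemma A1N_scal (hTN : S_TN) (heuG : S_euG) {n : ℕ} {Λ : Type} [Group Λ]
    (Φ : NatBij (GN n) Λ) (nL : Λ →* Multiplicative ℤ) (p : ℕ) [Fact p.Prime] (k m : ℕ) [NeZero m]
    (e : ℤ) (hEx : ExG Φ (nN n) nL m e) (hk : (thu 3 (ZMod (p ^ k)) ^ n) ^ m = 1) :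
    Q2.tH.comp (Φ.toFun _ (TN n (ZMod (p ^ k)))) =
      (pw ((thu 3 (ZMod (p ^ k)) ^ n) ^ e)).comp nL := by
  rw [← Φ.nat, (hTN.2 n _).1]
  exact heuG (GN n) Λ Φ (nN n) nL m e hEx _ _ hk

theorem p_A1N (hTN : S_TN) (hnmn : S_nmn) (heuG : S_euG) (hmp : S_mp) (hwm : S_wm) (hnz : S_nz)
    (hnc : S_nc) (hlz : S_lz) (hlq : S_lq) (hlh : S_lh) : S_A1N := by
  intro n hn1 Λ _ Φ nL hnL hex p _
  have hl := hlq 3 ℤ_[p] _ _ _ (hlz p)
  obtain ⟨Θ, hΘ⟩ := hlh (Qd 3 ℤ_[p]) (fun k => Qd 3 (ZMod (p ^ k))) _ _ hl Λ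
    (fun k => Φ.toFun _ (TN n (ZMod (p ^ k)))) (by
      intro k
      rw [← Φ.nat, hTN.1 n _ _ (tz p k)])
  have hΘ' : ∀ k l, Q2.map (Qd.map 3 (PadicInt.toZModPow k)) (Θ l) =
      Φ.toFun _ (TN n (ZMod (p ^ k))) l := fun k l => DFunLike.congr_fun (hΘ k) l
  -- the matrix part
  have hm : ∀ l, (Θ l).m = 1 := by
    intro l
    apply Subtype.ext
    ext1 i j
    apply A1N_ext p
    intro k
    have h1 : SLm (Qd.map 3 (PadicInt.toZModPow k)) (Θ l).m = 1 := by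
      have h2 : SLm (Qd.map 3 (PadicInt.toZModPow k)) (Θ l).m =
          (Q2.mH.comp (Φ.toFun _ (TN n (ZMod (p ^ k))))) l := by
        rw [MonoidHom.comp_apply, ← hΘ' k l]
        rfl
      rw [h2, ← Φ.nat, (hTN.2 n _).2.1, NatBij.one]
      rfl
    have h3 := congrArg (fun M : SL2 (Qd 3 (ZMod (p ^ k))) => M.val i j) h1
    have h4 : (SLm (Qd.map 3 (PadicInt.toZModPow k)) (1 : SL2 (Qd 3 ℤ_[p]))).val i j =
        (1 : SL2 (Qd 3 (ZMod (p ^ k)))).val i j := by rw [map_one]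
    exact h3.trans h4.symm
  -- the scalar part
  obtain ⟨l₀, hl₀⟩ := hnL (Multiplicative.ofAdd 1)
  have hred : ∀ (k : ℕ) (l : Λ), Units.map (Qd.map 3 (PadicInt.toZModPow k)).toMonoidHom (Θ l).t =
      (Q2.tH.comp (Φ.toFun _ (TN n (ZMod (p ^ k))))) l := by
    intro k l
    rw [MonoidHom.comp_apply, ← hΘ' k l]
    rfl
  have hσ : ∀ l, (Θ l).t = pw (Θ l₀).t (nL l) := by
    intro l
    apply Units.ext
    apply A1N_ext p
    intro k
    have hNZ : NeZero (Nat.card (Qd 3 (ZMod (p ^ k)))ˣ) := ⟨Nat.card_pos.ne'⟩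
    obtain ⟨e, hEx, -⟩ := hex (Nat.card (Qd 3 (ZMod (p ^ k)))ˣ)
    have hs := A1N_scal hTN heuG Φ nL p k _ e hEx pow_card_eq_one'
    have h1 : Units.map (Qd.map 3 (PadicInt.toZModPow k)).toMonoidHom (Θ l).t =
        Units.map (Qd.map 3 (PadicInt.toZModPow k)).toMonoidHom (pw (Θ l₀).t (nL l)) := by
      rw [hred k l, zpowersHom_apply, map_zpow, hred k l₀, hs, MonoidHom.comp_apply,
        MonoidHom.comp_apply, hl₀, pw_ofAdd, zpow_one, zpowersHom_apply]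
    exact congrArg Units.val h1
  refine ⟨(Θ l₀).t, ?_, ?_⟩
  · intro K _ _ j
    refine ⟨(Q2.map j).comp Θ, ?_, ?_, ?_⟩
    · ext1 l
      change Units.map j.toMonoidHom (Θ l).t =
        zpowersHom _ (Units.map j.toMonoidHom (Θ l₀).t) (nL l)
      rw [hσ l, zpowersHom_apply, zpowersHom_apply, map_zpow]
    · ext1 l
      change SLm j (Θ l).m = 1
      rw [hm, map_one]
    · obtain ⟨D, hD0, hD⟩ := hnmn n hn1
      -- a power of `p` larger than `|D|`
      have hp2 : 1 < p := (Fact.out (p := p.Prime)).one_lt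
      have hk : D.natAbs < p ^ D.natAbs := Nat.lt_pow_self hp2
      set k : ℕ := D.natAbs with hkdef
      obtain ⟨l, hl, -⟩ := (hmp (GN n) Λ Φ _ _ (TN n (ZMod (p ^ k))) (TN n (ZMod (p ^ k)))).1
        (tN n)
      obtain ⟨l', hl', -⟩ := (hmp (GN n) Λ Φ _ _ (TN n (ZMod (p ^ k))) (TN n (ZMod (p ^ k)))).1
        (iN n gb)
      have h5 : Qd.map 3 (PadicInt.toZModPow k) (Q2.W (Θ l) (Θ l') 0) =
          (th 3 (ZMod (p ^ k)) ^ n - 1) * (th 3 (ZMod (p ^ k)) ^ n - 1) := by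
        rw [← hwm, hΘ', hΘ', hl, hl', (hTN.2 n _).2.2]
      have h6 : (Q2.W (Θ l) (Θ l') 0).norm ≠ 0 := by
        intro h0
        have h7 := ((hnc _ _ (PadicInt.toZModPow (p := p) k)).1 3 (Q2.W (Θ l) (Θ l') 0)).1
        rw [h5, h0, map_zero, hD] at h7
        rw [ZMod.intCast_zmod_eq_zero_iff_dvd] at h7
        have h8 := Int.natAbs_dvd_natAbs.mpr h7
        rw [Int.natAbs_natCast] at h8
        have h9 := Nat.le_of_dvd (Int.natAbs_pos.mpr hD0) h8
        omega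
      refine ⟨l, l', ?_⟩
      intro h8
      apply (hnz p K).1 3 j _ h6
      have h9 := congrFun h8 0
      rw [MonoidHom.comp_apply, MonoidHom.comp_apply, hwm, Pi.zero_apply] at h9
      exact h9
  · intro k m _ e hEx hk
    have hk' : (thu 3 (ZMod (p ^ k)) ^ n) ^ m = 1 := by
      rw [← pow_mul, mul_comm, pow_mul, hk, one_pow]
    rw [hred k l₀, A1N_scal hTN heuG Φ nL p k m e hEx hk', MonoidHom.comp_apply, hl₀, pw_ofAdd,
      zpow_one, zpow_mul, zpow_natCast]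

end Pool.Agent.F8
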