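import Pool.Agent.Lib.MP_305fdd_al.F8.StmNA

/-!
# MP_305fdd_al, cyclic covers, piece [F8N A2N]: `σ` has norm one and is not rational
-/

set_option autoImplicit false

namespace Pool.Agent.F8

open Pool.Agent.MP_305fdd_al Pool.Agent.Lib.MP_305fdd_al Pool.Agent.F2X
open scoped QuadraticAlgebra

private lemma A2N_thn (R : Type) [CommRing R] (e : ℤ) : (thu 3 R ^ e).val.norm = 1 := by
  have h1 : Units.map (QuadraticAlgebra.norm : Qd 3 R →* R) (thu 3 R) = 1 := by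
    apply Units.ext
    show QuadraticAlgebra.norm (th 3 R) = 1
    rw [QuadraticAlgebra.norm_def]
    simp [th]
  have h2 : Units.map (QuadraticAlgebra.norm : Qd 3 R →* R) (thu 3 R ^ e) = 1 := by
    rw [map_zpow, h1, one_zpow]
  exact congrArg Units.val h2

private lemma A2N_key (n : ℕ) (Λ : Type) [Group Λ] (Φ : NatBij (GN n) Λ)
    (nL : Λ →* Multiplicative ℤ)
    (hex : ∀ (m : ℕ) [NeZero m], ∃ e : ℤ, ExG Φ (nN n) nL m e ∧ IsCoprime e (m : ℤ))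
    (p : ℕ) [Fact p.Prime] (σ : (Qd 3 ℤ_[p])ˣ)
    (hσ : SigN n Φ nL p σ) (k : ℕ) : ∃ (m : ℕ) (e : ℤ), IsCoprime e (m : ℤ) ∧
      thu 3 (ZMod (p ^ k)) ^ m = 1 ∧
      Units.map (Qd.map 3 (PadicInt.toZModPow k)).toMonoidHom σ =
        thu 3 (ZMod (p ^ k)) ^ ((n : ℤ) * e) := by
  have hm : Nat.card (Qd 3 (ZMod (p ^ k)))ˣ ≠ 0 := Nat.card_pos.ne'
  have : NeZero (Nat.card (Qd 3 (ZMod (p ^ k)))ˣ) := ⟨hm⟩
  obtain ⟨e, he1, he2⟩ := hex (Nat.card (Qd 3 (ZMod (p ^ k)))ˣ)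
  have h1 : thu 3 (ZMod (p ^ k)) ^ Nat.card (Qd 3 (ZMod (p ^ k)))ˣ = 1 := pow_card_eq_one'
  exact ⟨_, e, he2, h1, hσ.red k _ e he1 h1⟩

theorem p_A2N (hnc : S_nc) (hf1 : S_f1) : S_A2N := by
  intro n hn Λ _ Φ nL hex p hp σ hσ
  have hnorm : σ.val.norm = 1 := by
    rw [← PadicInt.ext_of_toZModPow]
    intro k
    obtain ⟨m, e, -, -, h⟩ := A2N_key n Λ Φ nL hex p σ hσ k
    rw [map_one, ← ((hnc _ _ (PadicInt.toZModPow k)).1 3 σ.val).1]
    have h2 : (Qd.map 3 (PadicInt.toZModPow k) σ.val).norm =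
        (thu 3 (ZMod (p ^ k)) ^ ((n : ℤ) * e)).val.norm := by
      rw [← h]; rfl
    rw [h2, A2N_thn]
  refine ⟨hnorm, ?_⟩
  intro him
  have hre : σ.val.re * σ.val.re = 1 := by
    rw [QuadraticAlgebra.norm_def, him] at hnorm
    simpa using hnorm
  have hsq : σ ^ 2 = 1 := by
    apply Units.ext
    rw [pow_two, Units.val_mul, Units.val_one]
    apply QuadraticAlgebra.ext
    · rw [QuadraticAlgebra.re_mul, him, hre]
      simp
    · rw [QuadraticAlgebra.im_mul, him]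
      simp
  obtain ⟨j, hj⟩ : ∃ j, 2 * n = j + 1 := ⟨2 * n - 1, by omega⟩
  have hpos : 0 < ff (2 * n) := by
    have h1 := hf1.2.2.2.2.2.1 (2 * n)
    have h2 : (0 : ℤ) < ((2 * n : ℕ) : ℤ) := by exact_mod_cast (by omega : 0 < 2 * n)
    linarith
  -- the level
  obtain ⟨m, e, ⟨a, b, hab⟩, hm, h⟩ := A2N_key n Λ Φ nL hex p σ hσ (ff (2 * n)).toNat
  set k : ℕ := (ff (2 * n)).toNat with hk
  have h3 : (thu 3 (ZMod (p ^ k)) ^ ((n : ℤ) * e)) ^ 2 = 1 := by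
    rw [← h, ← map_pow, hsq, map_one]
  have h4 : thu 3 (ZMod (p ^ k)) ^ (2 * n) = 1 := by
    have h5 : ((thu 3 (ZMod (p ^ k))) ^ ((2 * n : ℕ) : ℤ)) =
        ((thu 3 (ZMod (p ^ k)) ^ ((n : ℤ) * e)) ^ 2) ^ a *
        (thu 3 (ZMod (p ^ k)) ^ m) ^ (2 * n * b) := by
      rw [← zpow_natCast _ m, ← zpow_natCast _ 2, ← zpow_mul, ← zpow_mul, ← zpow_mul, ← zpow_add]
      congr 1
      push_cast
      linear_combination (-2 * (n : ℤ)) * hab
    rw [h3, hm, one_zpow, one_zpow, one_mul] at h5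
    exact_mod_cast h5
  have h6 : (Qd.map 3 (Int.castRingHom (ZMod (p ^ k)))) ((thu 3 ℤ ^ (2 * n)).val) = 1 := by
    rw [Units.val_pow_eq_pow_val, map_pow, thu_val, Qd.map_th, ← thu_val,
      ← Units.val_pow_eq_pow_val, h4, Units.val_one]
  have h7 := congrArg QuadraticAlgebra.im h6
  rw [hj, hf1.1 j, ← hj, Qd.map_apply] at h7
  have h8 : ((ff (2 * n) : ℤ) : ZMod (p ^ k)) = 0 := by simpa using h7
  rw [ZMod.intCast_zmod_eq_zero_iff_dvd] at h8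
  have h9 := Int.le_of_dvd hpos h8
  have h10 : k < p ^ k := Nat.lt_pow_self hp.out.one_lt
  have h11 : (k : ℤ) = ff (2 * n) := by rw [hk]; exact Int.toNat_of_nonneg hpos.le
  have h12 : ((k : ℕ) : ℤ) < ((p ^ k : ℕ) : ℤ) := by exact_mod_cast h10
  omega

end Pool.Agent.F8
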