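import Pool.Agent.Lib.MP_305fdd_al.F8.StmNA

/-!
# MP_305fdd_al, cyclic covers of the figure-eight knot complement, piece [F8N A4N]: the trace of the
monodromy is an integer
-/

set_option autoImplicit false

namespace Pool.Agent.F8

open Pool.Agent.MP_305fdd_al Pool.Agent.Lib.MP_305fdd_al Pool.Agent.F2X
open scoped QuadraticAlgebra

/-- among three exceptional values two are equal -/
private lemma A4N_two (Λ : Type) [Group Λ]
    (n : Λ →* Multiplicative ℤ) (K : Type) [Field K] [CharZero K] (hu : ¬ Good1 n K 3)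
    (a b c : Kˣ) (ha : P1 n K a) (hb : P1 n K b) (hc : P1 n K c) (hab : a ≠ b) :
    c = a ∨ c = b := by
  by_contra hcon
  rw [not_or] at hcon
  apply hu
  refine ⟨![a, b, c], ?_, ?_⟩
  · intro i j hij
    fin_cases i <;> fin_cases j <;> simp at hij ⊢
    · exact hab hij
    · exact hcon.1 hij.symm
    · exact hab hij.symm
    · exact hcon.2 hij.symm
    · exact hcon.1 hij
    · exact hcon.2 hij
  · intro i
    fin_cases i
    · exact ha
    · exact hb
    · exact hc

/-- two pairs of exceptional values have the same sum -/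
private lemma A4N_sum (Λ : Type) [Group Λ]
    (n : Λ →* Multiplicative ℤ) (K : Type) [Field K] [CharZero K] (hu : ¬ Good1 n K 3)
    (a b c d : Kˣ) (ha : P1 n K a) (hb : P1 n K b) (hc : P1 n K c) (hd : P1 n K d)
    (hab : a ≠ b) (hcd : c ≠ d) : a.val + b.val = c.val + d.val := by
  rcases A4N_two Λ n K hu a b c ha hb hc hab with h1 | h1 <;>
  rcases A4N_two Λ n K hu a b d ha hb hd hab with h2 | h2
  · exact absurd (h1.trans h2.symm) hcd
  · rw [h1, h2]
  · rw [h1, h2, add_comm]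
  · exact absurd (h1.trans h2.symm) hcd

theorem p_A4N (hq1 : S_q1) (hA3 : S_A3) (hP1m : S_P1m) (hgal : S_gal)
    (hint : S_int) : S_A4N := by
  intro Λ _ _ n hn hu σ hσ him
  -- the `p`-adic values
  have key : ∀ (p : ℕ) [Fact p.Prime], ∃ τ₁ τ₂ : (Fl p)ˣ, τ₁ ≠ τ₂ ∧ P1 n (Fl p) τ₁ ∧
      P1 n (Fl p) τ₂ ∧ τ₁.val + τ₂.val = iz p (σ p).val.trace := by
    intro p _
    obtain ⟨j₁, j₂, h1, h2, -⟩ := hA3 (Fl p) ℤ_[p] (iz p) 3 (by norm_num) (by norm_num)
    refine ⟨Units.map j₁.toMonoidHom (σ p), Units.map j₂.toMonoidHom (σ p), ?_,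
      hσ p _ j₁, hσ p _ j₂, h2 _⟩
    intro h
    have h3 : j₁ (σ p).val = j₂ (σ p).val := congrArg Units.val h
    have h4 := h1 _ (sub_eq_zero.mpr h3)
    apply him p
    have h5 : (((σ p).val.im : ℤ_[p]) : ℚ_[p]) = 0 :=
      (algebraMap ℚ_[p] (Fl p)).injective (by rw [map_zero]; exact h4)
    exact Subtype.ext h5
  -- the algebraic values
  haveI : Fact (Nat.Prime 2) := ⟨Nat.prime_two⟩
  obtain ⟨s₁, s₂, hs, hs1, hs2, -⟩ := key 2
  have hG2 : Good1 n (Fl 2) 2 := by
    refine ⟨![s₁, s₂], ?_, ?_⟩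
    · intro i j hij
      fin_cases i <;> fin_cases j <;> simp at hij ⊢
      · exact hs hij
      · exact hs hij.symm
    · intro i
      fin_cases i
      · exact hs1
      · exact hs2
  obtain ⟨t, ht1, ht2⟩ := ((hq1 (Fl 2) Λ n 2 hn).1 hG2).2
  have ht : t 0 ≠ t 1 := fun h => by
    have := ht1 h
    simp at this
  obtain ⟨q, hq⟩ := hgal ((t 0).val + (t 1).val) (by
    intro g
    have h1 := hP1m Λ n _ _ (g : AlgebraicClosure ℚ →+* AlgebraicClosure ℚ) _ (ht2 0)
    have h2 := hP1m Λ n _ _ (g : AlgebraicClosure ℚ →+* AlgebraicClosure ℚ) _ (ht2 1)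
    have h3 := A4N_sum Λ n _ (hu _) _ _ _ _ h1 h2 (ht2 0) (ht2 1) (by
      intro h
      apply ht
      apply Units.ext
      exact g.injective (congrArg Units.val h)) ht
    rw [map_add]
    exact h3)
  -- comparison
  have halg : Algebra.IsAlgebraic ℚ (AlgebraicClosure ℚ) := by
    convert AlgebraicClosure.isAlgebraic ℚ
    · rfl
    · exact Subsingleton.elim _ _
  have hp : ∀ (p : ℕ) [Fact p.Prime], (q : ℚ_[p]) = (((σ p).val.trace : ℤ_[p]) : ℚ_[p]) := by
    intro p _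
    obtain ⟨τ₁, τ₂, h0, h1, h2, h3⟩ := key p
    let ι : AlgebraicClosure ℚ →ₐ[ℚ] Fl p := IsAlgClosed.lift
    have h4 := hP1m Λ n _ _ (ι : AlgebraicClosure ℚ →+* Fl p) _ (ht2 0)
    have h5 := hP1m Λ n _ _ (ι : AlgebraicClosure ℚ →+* Fl p) _ (ht2 1)
    have h6 := A4N_sum Λ n _ (hu _) _ _ _ _ h4 h5 h1 h2 (by
      intro h
      apply ht
      apply Units.ext
      exact (ι : AlgebraicClosure ℚ →+* Fl p).injective (congrArg Units.val h)) h0
    rw [h3] at h6
    have h7 : ι ((t 0).val + (t 1).val) = iz p (σ p).val.trace := by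
      rw [map_add]
      exact h6
    rw [hq, AlgHom.commutes] at h7
    apply (algebraMap ℚ_[p] (Fl p)).injective
    rw [map_ratCast]
    rw [eq_ratCast (algebraMap ℚ (Fl p))] at h7
    exact h7
  obtain ⟨a, ha⟩ := hint q (fun p _ => ⟨_, hp p⟩)
  refine ⟨a, ?_⟩
  intro p _
  have h8 := hp p
  rw [ha] at h8
  apply Subtype.ext
  rw [← h8]
  simp

end Pool.Agent.F8
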