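import Pool.Agent.Lib.MP_305fdd_al.F8.StmNA

/-!
# [F8N A6N] the exponents are `±1` (cyclic covers of the figure-eight knot complement)
-/

set_option autoImplicit false

namespace Pool.Agent.F8

open Pool.Agent.MP_305fdd_al Pool.Agent.Lib.MP_305fdd_al Pool.Agent.F2X

/-- one modulus: `LL k = a₀` -/
private theorem A6N_one (hf1 : S_f1) (hf2 : S_f2) (hf3 : S_f3N) (n : ℕ) (hn : 1 ≤ n) (a₀ : ℤ)
    (e : ℕ → ℤ) (hcop : ∀ m : ℕ, 0 < m → IsCoprime (e m) (m : ℤ))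
    (htr : ∀ M m : ℕ, 0 < M → 0 < m → thu 3 (ZMod M) ^ m = 1 →
      (a₀ : ZMod M) = (thu 3 (ZMod M) ^ ((n : ℤ) * e m)).val.trace)
    (i : ℕ) (hi : |a₀| < ff i) (hni : n < i + 2) :
    ∃ k : ℕ, 0 < k ∧
      ((2 * ((i + 2 : ℕ) : ℤ)) ∣ n * e (2 * (i + 2)) - k ∨
        (2 * ((i + 2 : ℕ) : ℤ)) ∣ n * e (2 * (i + 2)) + k) ∧ LL k = a₀ := by
  obtain ⟨-, -, -, -, hmono, hge, hLmono, hLpos, hLf⟩ := hf1
  have hM : ((ff (i + 2)).toNat : ℤ) = ff (i + 2) := by
    apply Int.toNat_of_nonneg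
    have := hge (i + 2)
    have h0 : (0 : ℤ) ≤ ((i + 2 : ℕ) : ℤ) := Int.natCast_nonneg _
    omega
  have hMpos : 0 < (ff (i + 2)).toNat := by
    have := hge (i + 2)
    push_cast at this
    omega
  have h1 : thu 3 (ZMod (ff (i + 2)).toNat) ^ (2 * (i + 2)) = 1 := hf2 (i + 2) _ (by omega) hM
  have hc := hcop (2 * (i + 2)) (by omega)
  have hnd : ¬ ((i + 2 : ℕ) : ℤ) ∣ (n : ℤ) * e (2 * (i + 2)) := by
    intro h
    have h2 : IsCoprime ((i + 2 : ℕ) : ℤ) (e (2 * (i + 2))) := by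
      refine (hc.of_isCoprime_of_dvd_right ?_).symm
      push_cast
      exact Dvd.intro_left _ rfl
    have h3 := h2.dvd_of_dvd_mul_right h
    have h4 : i + 2 ∣ n := by exact_mod_cast h3
    have := Nat.le_of_dvd (by omega) h4
    omega
  obtain ⟨k, hk0, hkj, hkd, hkt⟩ := hf3 (i + 2) _ ((n : ℤ) * e (2 * (i + 2))) (by omega) hM hnd
  refine ⟨k, hk0, hkd, ?_⟩
  have h2 := htr _ (2 * (i + 2)) hMpos (by omega) h1
  rw [hkt, ZMod.intCast_eq_intCast_iff_dvd_sub, hM] at h2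
  have hst : StrictMono fun n : ℕ => LL (n : ℤ) := by
    refine strictMono_nat_of_lt_succ fun n => ?_
    have := hLmono n
    push_cast
    exact this
  have hle : LL (k : ℤ) ≤ LL ((i : ℤ) + 1) := by
    have hki : k ≤ i + 1 := by omega
    have := hst.monotone hki
    push_cast at this
    exact this
  have hpos := hLpos k
  rw [hLf i] at hle
  have hi1 := hmono i
  have hi2 := hmono (i + 1)
  rw [abs_lt] at hi
  have hz : LL (k : ℤ) - a₀ = 0 := by
    refine Int.eq_zero_of_abs_lt_dvd h2 ?_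
    rw [abs_lt]
    constructor
    · have : ff (i + 1) < ff (i + 2) := hi2
      omega
    · omega
  omega

/-- [F8N A6N] the exponents are `±1`. -/
theorem p_A6N (hf1 : S_f1) (hf2 : S_f2) (hf3N : S_f3N) : S_A6N := by
  intro n hn a₀ e hcop hcomp htr
  have hone := A6N_one hf1 hf2 hf3N n hn a₀ e hcop htr
  obtain ⟨-, -, -, -, hmono, hge, hLmono, hLpos, hLf⟩ := hf1
  have hst : StrictMono fun n : ℕ => LL (n : ℤ) := by
    refine strictMono_nat_of_lt_succ fun n => ?_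
    have := hLmono n
    push_cast
    exact this
  obtain ⟨i₀, hi₀⟩ : ∃ i₀ : ℕ, i₀ = a₀.natAbs + 1 + n := ⟨_, rfl⟩
  have hbig : ∀ i : ℕ, i₀ ≤ i → |a₀| < ff i := by
    intro i hi
    have h1 := hge i
    have h2 : |a₀| = (a₀.natAbs : ℤ) := (Int.natCast_natAbs a₀).symm
    omega
  obtain ⟨k₀, hk0, -, hLk⟩ := hone i₀ (hbig i₀ le_rfl) (by omega)
  have hall : ∀ j : ℕ, i₀ + 2 ≤ j →
      ((2 * (j : ℤ)) ∣ n * e (2 * j) - k₀ ∨ (2 * (j : ℤ)) ∣ n * e (2 * j) + k₀) := by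
    intro j hj
    obtain ⟨i, rfl⟩ : ∃ i, j = i + 2 := ⟨j - 2, by omega⟩
    obtain ⟨k, -, hkd, hL⟩ := hone i (hbig i (by omega)) (by omega)
    have hkk : k = k₀ := hst.injective (by
      rw [hL, hLk])
    subst hkk
    exact hkd
  have hk1 : k₀ = n := by
    obtain ⟨j, hj⟩ : ∃ j : ℕ, j = n * k₀ * (i₀ + 2) := ⟨_, rfl⟩
    have hj2 : i₀ + 2 ≤ j := by
      rw [hj]; exact Nat.le_mul_of_pos_left _ (Nat.mul_pos hn hk0)
    have h1 := hall j hj2
    have hjn : (n : ℤ) ∣ 2 * (j : ℤ) := by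
      refine Dvd.dvd.mul_left ?_ 2
      rw [hj, mul_assoc]
      exact_mod_cast Dvd.intro _ rfl
    have hjk : (k₀ : ℤ) ∣ 2 * (j : ℤ) := by
      refine Dvd.dvd.mul_left ?_ 2
      rw [hj, mul_comm n k₀, mul_assoc]
      exact_mod_cast Dvd.intro _ rfl
    have hcp : IsCoprime (k₀ : ℤ) (e (2 * j)) := by
      refine ((hcop (2 * j) (by omega)).of_isCoprime_of_dvd_right ?_).symm
      push_cast
      exact hjk
    have hne : (n : ℤ) ∣ n * e (2 * j) := Dvd.intro _ rfl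
    have ha : (n : ℤ) ∣ k₀ := by
      rcases h1 with h1 | h1
      · have := dvd_sub hne (hjn.trans h1)
        rwa [sub_sub_cancel] at this
      · have := dvd_sub (hjn.trans h1) hne
        rwa [add_sub_cancel_left] at this
    have hb : (k₀ : ℤ) ∣ n := by
      have h2 : (k₀ : ℤ) ∣ n * e (2 * j) := by
        rcases h1 with h1 | h1
        · have := dvd_add (hjk.trans h1) (dvd_refl (k₀ : ℤ))
          rwa [sub_add_cancel] at this
        · have := dvd_sub (hjk.trans h1) (dvd_refl (k₀ : ℤ))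
          rwa [add_sub_cancel_right] at this
      exact hcp.dvd_of_dvd_mul_right h2
    exact Nat.dvd_antisymm (by exact_mod_cast hb) (by exact_mod_cast ha)
  subst hk1
  have hpm : ∀ m : ℕ, 0 < m → (m : ℤ) ∣ e m - 1 ∨ (m : ℤ) ∣ e m + 1 := by
    intro m hm
    obtain ⟨j, hj⟩ : ∃ j : ℕ, j = k₀ * (m * (i₀ + 2)) := ⟨_, rfl⟩
    have hj2 : i₀ + 2 ≤ j := by
      rw [hj, ← mul_assoc]; exact Nat.le_mul_of_pos_left _ (Nat.mul_pos hk0 hm)
    have h1 := hall j hj2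
    have hk0' : (k₀ : ℤ) ≠ 0 := by exact_mod_cast hk0.ne'
    have hmj : m ∣ 2 * j := by
      refine Dvd.dvd.mul_left ?_ 2
      rw [hj]
      exact (Dvd.intro _ rfl : m ∣ m * (i₀ + 2)).mul_left k₀
    have h2 := hcomp m (2 * j) hm (by omega) hmj
    have h2j : (2 * (j : ℤ)) = k₀ * (2 * (m * ((i₀ + 2 : ℕ) : ℤ))) := by
      rw [hj]
      push_cast
      ring
    have h3 : (m : ℤ) ∣ 2 * (m * ((i₀ + 2 : ℕ) : ℤ)) := (Dvd.intro _ rfl).mul_left 2
    rcases h1 with h1 | h1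
    · left
      have h4 : (2 * (m * ((i₀ + 2 : ℕ) : ℤ))) ∣ e (2 * j) - 1 := by
        rw [h2j, show (k₀ : ℤ) * e (2 * j) - k₀ = k₀ * (e (2 * j) - 1) by ring] at h1
        exact (mul_dvd_mul_iff_left hk0').mp h1
      have := dvd_add h2 (h3.trans h4)
      rwa [show e m - e (2 * j) + (e (2 * j) - 1) = e m - 1 by ring] at this
    · right
      have h4 : (2 * (m * ((i₀ + 2 : ℕ) : ℤ))) ∣ e (2 * j) + 1 := by
        rw [h2j, show (k₀ : ℤ) * e (2 * j) + k₀ = k₀ * (e (2 * j) + 1) by ring] at h1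
        exact (mul_dvd_mul_iff_left hk0').mp h1
      have := dvd_add h2 (h3.trans h4)
      rwa [show e m - e (2 * j) + (e (2 * j) + 1) = e m + 1 by ring] at this
  by_contra hcon
  rw [not_or] at hcon
  obtain ⟨hc1, hc2⟩ := hcon
  push Not at hc1 hc2
  obtain ⟨m, hm, hm1⟩ := hc1
  obtain ⟨m', hm', hm1'⟩ := hc2
  have hmm : 0 < m * m' := Nat.mul_pos hm hm'
  rcases hpm (m * m') hmm with h | h
  · apply hm1
    have h2 := hcomp m (m * m') hm hmm (Dvd.intro _ rfl)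
    have h3 : (m : ℤ) ∣ ((m * m' : ℕ) : ℤ) := by
      exact_mod_cast Dvd.intro _ rfl
    have := dvd_add h2 (h3.trans h)
    have he : e m - e (m * m') + (e (m * m') - 1) = e m - 1 := by ring
    rwa [he] at this
  · apply hm1'
    have h2 := hcomp m' (m * m') hm' hmm (Dvd.intro_left _ rfl)
    have h3 : (m' : ℤ) ∣ ((m * m' : ℕ) : ℤ) := by
      exact_mod_cast Dvd.intro_left _ rfl
    have := dvd_add h2 (h3.trans h)
    have he : e m' - e (m * m') + (e (m * m') + 1) = e m' + 1 := by ring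
    rwa [he] at this

end Pool.Agent.F8
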