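import Pool.Agent.Lib.MP_305fdd_al.F8.StmNA

/-!
# MP_305fdd_al: cyclic covers of the figure-eight knot complement: piece [F8N B1N]
-/

set_option autoImplicit false

namespace Pool.Agent.F8

open Pool.Agent.MP_305fdd_al Pool.Agent.Lib.MP_305fdd_al Pool.Agent.F2X
open scoped QuadraticAlgebra

/-- translation part of a product if the first matrix is trivial -/
private theorem B1N_mul_v {K : Type} [CommRing K] (x y : Q2 K) (hx : x.m = 1) (i : Fin 2) :
    (x * y).v i = x.v i + x.t.val * y.v i := by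
  rw [Q2.mul_v, hx]
  simp

/-- translation part of the inverse if the matrix is trivial -/
private theorem B1N_inv_v {K : Type} [CommRing K] (x : Q2 K) (hx : x.m = 1) (i : Fin 2) :
    (x⁻¹).v i = -((x.t⁻¹).val * x.v i) := by
  rw [Q2.inv_v, hx]
  simp

/-- the subgroup of elements with trivial matrix and translation proportional to `x.t - 1` -/
private def B1N_H {K : Type} [CommRing K] (p : K) (α : Fin 2 → K) : Subgroup (Q2 K) where
  carrier := {x | x.m = 1 ∧ ∀ i, (p - 1) * x.v i = (x.t.val - 1) * α i}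
  one_mem' := ⟨rfl, by intro i; simp⟩
  mul_mem' := by
    rintro x y ⟨hx, hx'⟩ ⟨hy, hy'⟩
    refine ⟨by rw [Q2.mul_m, hx, hy, one_mul], ?_⟩
    intro i
    rw [B1N_mul_v x y hx, Q2.mul_t, Units.val_mul]
    linear_combination hx' i + x.t.val * hy' i
  inv_mem' := by
    rintro x ⟨hx, hx'⟩
    refine ⟨by rw [Q2.inv_m, hx, inv_one], ?_⟩
    intro i
    rw [B1N_inv_v x hx, Q2.inv_t]
    have h : (x.t⁻¹).val * x.t.val = 1 := by rw [← Units.val_mul, inv_mul_cancel, Units.val_one]
    linear_combination (-(x.t⁻¹).val) * hx' i - α i * h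

/-- the obstruction for elements with trivial matrix part -/
private theorem B1N_W {K : Type} [CommRing K] (x y : Q2 K) (hx : x.m = 1) (hy : y.m = 1) (i : Fin 2) :
    Q2.W x y i = (x.t.val - 1) * (x.t.val - 1) * y.v i - (y.t.val - 1) * (x.t.val - 1) * x.v i := by
  have h : ∀ z : Q2 K, z.m = 1 → Q2.X z = !![z.t.val - 1, 0; 0, z.t.val - 1] := by
    intro z hz
    unfold Q2.X
    rw [hz]
    ext i j
    fin_cases i <;> fin_cases j <;> simp
  unfold Q2.W
  rw [h x hx, h y hy, Matrix.det_fin_two_of, Matrix.adjugate_fin_two_of, mulVec2, mulVec2]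
  fin_cases i
  · simp
    ring
  · simp
    ring

theorem p_B1N (hchn : S_chn) : S_B1N := by
  intro n K _ τ
  rintro ⟨Θ, ht, hm, g, h, hgh⟩
  by_contra hτ
  apply hgh
  have hT : ∀ g : GN n, (Θ g).t = pw τ (nN n g) := fun g => DFunLike.congr_fun ht g
  have hM : ∀ g : GN n, (Θ g).m = 1 := fun g => DFunLike.congr_fun hm g
  have ti : ∀ w, (Θ (iN n w)).t = 1 := by
    intro w
    rw [hT, nN_iN, map_one]
  have ta : (Θ (tN n)).t = τ := by rw [hT, nN_tN, pw_ofAdd, zpow_one]
  -- the additive map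
  let f : F →* Multiplicative (Fin 2 → K) :=
    { toFun := fun w => Multiplicative.ofAdd (Θ (iN n w)).v
      map_one' := by
        rw [map_one, map_one]
        rfl
      map_mul' := fun x y => by
        rw [← ofAdd_add, map_mul, map_mul]
        congr 1
        ext i
        rw [B1N_mul_v _ _ (hM _), ti, Units.val_one, one_mul]
        rfl }
  have hconj : ∀ w i, (Θ (iN n ((phi ^ n) w))).v i = τ.val * (Θ (iN n w)).v i := by
    intro w i
    have r1 : Θ (tN n) * Θ (iN n w) = Θ (iN n ((phi ^ n) w)) * Θ (tN n) := by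
      rw [← map_mul, ← map_mul]
      exact congrArg Θ (mul_inv_eq_iff_eq_mul.1 (tN_conj n w))
    have h2 := congrFun (congrArg Q2.v r1) i
    rw [B1N_mul_v _ _ (hM _), B1N_mul_v _ _ (hM _), ta, ti, Units.val_one, one_mul] at h2
    linear_combination -h2
  have hq : τ.val * τ.val - (Lu n : K) * τ.val + 1 ≠ 0 := by
    intro h0
    apply hτ
    linear_combination h0
  have v0 : ∀ w i, (Θ (iN n w)).v i = 0 := by
    intro w i
    have h1 := hchn n _ f w
    have h2 := congrFun (congrArg Multiplicative.toAdd h1) i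
    have h3 : (Θ (iN n ((phi ^ n) ((phi ^ n) w)))).v i =
        (Lu n : K) * (Θ (iN n ((phi ^ n) w))).v i - (Θ (iN n w)).v i := by
      have h4 : Multiplicative.toAdd (f ((phi ^ n) w) ^ Lu n * (f w)⁻¹) i =
          (Lu n : K) * (Θ (iN n ((phi ^ n) w))).v i - (Θ (iN n w)).v i := by
        rw [toAdd_mul, toAdd_zpow, toAdd_inv, Pi.add_apply, Pi.neg_apply, Pi.smul_apply,
          zsmul_eq_mul, sub_eq_add_neg]
        rfl
      rw [← h4, ← h2]
      rfl
    rw [hconj, hconj] at h3
    have h0 : (τ.val * τ.val - (Lu n : K) * τ.val + 1) * (Θ (iN n w)).v i = 0 := by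
      linear_combination h3
    rcases mul_eq_zero.1 h0 with h1 | h1
    · exact absurd h1 hq
    · exact h1
  let H : Subgroup (GN n) := (B1N_H τ.val (Θ (tN n)).v).comap Θ
  have hiH : ∀ w, iN n w ∈ H := fun w => ⟨hM _, by intro i; rw [v0, ti, Units.val_one]; ring⟩
  have htH : tN n ∈ H := ⟨hM _, by intro i; rw [ta]⟩
  have key : ∀ (g : GN n) (i : Fin 2),
      (τ.val - 1) * (Θ g).v i = ((Θ g).t.val - 1) * (Θ (tN n)).v i := by
    intro g
    obtain ⟨w, k, hg⟩ := GN_cases g
    have h1 : g ∈ H := by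
      rw [hg]
      exact H.mul_mem (hiH w) (H.zpow_mem htH k)
    exact h1.2
  ext i
  rw [B1N_W _ _ (hM _) (hM _), Pi.zero_apply]
  by_cases h1 : τ = 1
  · have h2 : ∀ g : GN n, (Θ g).t = 1 := by
      intro g
      rw [hT, h1, zpowersHom_apply, one_zpow]
    rw [h2, h2, Units.val_one]
    ring
  · have h2 : τ.val - 1 ≠ 0 := by
      intro h3
      apply h1
      apply Units.ext
      rw [Units.val_one]
      linear_combination h3
    have h4 : (τ.val - 1) * (((Θ g).t.val - 1) * ((Θ g).t.val - 1) * (Θ h).v i -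
        ((Θ h).t.val - 1) * ((Θ g).t.val - 1) * (Θ g).v i) = 0 := by
      linear_combination (((Θ g).t.val - 1) * ((Θ g).t.val - 1)) * key h i -
        (((Θ h).t.val - 1) * ((Θ g).t.val - 1)) * key g i
    rcases mul_eq_zero.1 h4 with h5 | h5
    · exact absurd h5 h2
    · exact h5

end Pool.Agent.F8
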