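import Pool.Agent.Lib.MP_305fdd_al.F8.StmNT

set_option autoImplicit false

namespace Pool.Agent.F8

open Pool.Agent.MP_305fdd_al Pool.Agent.Lib.MP_305fdd_al Pool.Agent.F2X
open scoped QuadraticAlgebra

/-- the `p`-adic representations satisfy `CN` -/
theorem p_CNp (hLCp : S_LCp) (hirp : S_irp) : S_CNp := by
  intro n hn Λ _ Φ nL Ψ hs hC hT p _ r hr w hw
  refine ⟨hirp n Λ Φ nL hs hC p r hr w hw, fun m => ?_⟩
  refine hLCp p (n * (m.val + 1)) (Nat.mul_pos hn (Nat.succ_pos _)) _ (Ψ m)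
    (nm nL (m.val + 1)) (hT.cmp m) (r.comp (Lm nL (m.val + 1)).subtype) (fun k => ?_) w hw
  have h1 : (rE (n * (m.val + 1)) (ZMod (p ^ k))) =
      (rE n (ZMod (p ^ k))).comp (inc n (m.val + 1)) := (rN_inc n (m.val + 1) _ _).symm
  rw [← MonoidHom.comp_assoc, hr k, h1]
  exact (hT.res m _ _).symm

end Pool.Agent.F8
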