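import Pool.Agent.Lib.MP_305fdd_al.F8.StmNT

/-!
# [F8N LCp] the condition at one level, for the `p`-adic representation
-/

set_option autoImplicit false

namespace Pool.Agent.F8

open Pool.Agent.MP_305fdd_al Pool.Agent.Lib.MP_305fdd_al Pool.Agent.F2X

noncomputable section

/-- [F8N LCp] -/
theorem p_LCp (hcpx : S_cpx) (hex0 : S_ex0) (hpe2 : S_pe2) : S_LCp := by
  intro p _ N hN L _ Ψ nL hcm r hr w hw
  obtain ⟨c, X, hc, hcpl, hXc⟩ := hcpx (Fl p) N hN
  have hc0 : c ≠ 0 := by
    rintro rfl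
    exact hcpl.card Nat.cast_zero
  haveI : NeZero c := ⟨hc0⟩
  choose τ h1 h2 using fun i => hex0 (Fl p) two_ne_zero N w hw (X i) (hcpl.t1 i)
  have hmem : ∀ i g, X i g ∈ rootsOfUnity c (Fl p) := fun i g => by
    rw [mem_rootsOfUnity]
    exact hXc i g
  have hcomp : ∀ i, (rootsOfUnity c (Fl p)).subtype.comp
      ((X i).codRestrict (rootsOfUnity c (Fl p)) (hmem i)) = X i := by
    intro i
    ext g
    rfl
  refine ⟨c, rootsOfUnity c (Fl p), inferInstance, inferInstance,
    fun i => (X i).codRestrict (rootsOfUnity c (Fl p)) (hmem i),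
    (rootsOfUnity c (Fl p)).subtype, τ, ?_, fun i => ⟨?_, ?_⟩⟩
  · have : (fun i => (rootsOfUnity c (Fl p)).subtype.comp
      ((X i).codRestrict (rootsOfUnity c (Fl p)) (hmem i))) = X := funext hcomp
    rw [this]
    exact hcpl
  · rw [hcomp i]
    exact h2 i
  · apply hpe2 p N L Ψ nL hcm r hr w hw
    · rw [hcomp i]
      exact h2 i
    · rw [hcomp i]
      exact h1 i

end

end Pool.Agent.F8
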