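import Pool.Agent.Lib.MP_305fdd_al.F8.StmNA

/-!
# MP_305fdd_al, cyclic covers of the figure-eight knot complement: main result of block NA
-/

set_option autoImplicit false

namespace Pool.Agent.F8

open Pool.Agent.MP_305fdd_al Pool.Agent.Lib.MP_305fdd_al Pool.Agent.F2X
open scoped QuadraticAlgebra

private theorem NA_congr {Λ : Type} [Group Λ] (n : Λ →* Multiplicative ℤ) (m : ℕ) {e e' : ℤ}
    (h : (m : ℤ) ∣ e - e') :
    (redZ m).comp ((zpowGroupHom e).comp n) = (redZ m).comp ((zpowGroupHom e').comp n) := by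
  have h1 : (e : ZMod m) = (e' : ZMod m) := by
    rw [← sub_eq_zero, ← Int.cast_sub, ZMod.intCast_zmod_eq_zero_iff_dvd]
    exact h
  apply MonoidHom.ext
  intro l
  apply Multiplicative.toAdd.injective
  show Multiplicative.toAdd (redZ m ((n l) ^ e)) = Multiplicative.toAdd (redZ m ((n l) ^ e'))
  rw [map_zpow (redZ m) (n l) e, map_zpow (redZ m) (n l) e', toAdd_zpow, toAdd_zpow, zsmul_eq_mul,
    zsmul_eq_mul, h1]

private theorem NA_one {Λ : Type} [Group Λ] (n : Λ →* Multiplicative ℤ) :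
    (zpowGroupHom (1 : ℤ)).comp n = n := by
  apply MonoidHom.ext
  intro l
  show (n l) ^ (1 : ℤ) = n l
  rw [zpow_one]

/-- `GN n` is finitely generated -/
private theorem NA_fg (n : ℕ) : Group.FG (GN n) := by
  rw [Group.fg_iff]
  refine ⟨{iN n ga, iN n gb, tN n}, ?_, by simp⟩
  rw [eq_top_iff]
  intro g _
  obtain ⟨w, k, rfl⟩ := GN_cases g
  have h1 : ∀ w : F, iN n w ∈ Subgroup.closure ({iN n ga, iN n gb, tN n} : Set (GN n)) := by
    intro w
    have h2 : w ∈ (Subgroup.closure ({iN n ga, iN n gb, tN n} : Set (GN n))).comap (iN n) := by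
      have h3 : (⊤ : Subgroup F) ≤
          (Subgroup.closure ({iN n ga, iN n gb, tN n} : Set (GN n))).comap (iN n) := by
        rw [← FreeGroup.closure_range_of, Subgroup.closure_le]
        rintro x ⟨i, rfl⟩
        have hmem : iN n (FreeGroup.of i) ∈ ({iN n ga, iN n gb, tN n} : Set (GN n)) := by
          fin_cases i
          · exact Or.inl rfl
          · exact Or.inr (Or.inl rfl)
        exact Subgroup.subset_closure hmem
      exact h3 (Subgroup.mem_top w)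
    exact h2
  refine mul_mem (h1 w) (zpow_mem (Subgroup.subset_closure ?_) k)
  exact Or.inr (Or.inr rfl)

theorem p_NA (habN : S_abN) (haLN : S_aLN) (hexG : S_exG) (hedG : S_edG) (hu1N : S_u1N)
    (hA1N : S_A1N) (hA2N : S_A2N) (hA4N : S_A4N) (hA5N : S_A5N) (hA6N : S_A6N) : S_NA := by
  intro n hn Λ _ _ hs Φ
  have hfg : Group.FG (GN n) := NA_fg n
  have hab := habN n hn
  obtain ⟨n₀, hn₀⟩ := haLN (GN n) Λ hs (nN n) hab
  have hex : ∀ (m : ℕ) [NeZero m], ∃ e : ℤ, ExG Φ (nN n) n₀ m e ∧ IsCoprime e (m : ℤ) :=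
    fun m _ => hexG (GN n) Λ Φ (nN n) n₀ hab.1 hn₀ m
  have he : ∀ m : ℕ, ∃ e : ℤ, ∀ _ : NeZero m, ExG Φ (nN n) n₀ m e ∧ IsCoprime e (m : ℤ) := by
    intro m
    by_cases hm : m = 0
    · exact ⟨1, fun h => absurd hm h.out⟩
    · have : NeZero m := ⟨hm⟩
      obtain ⟨e, h1, h2⟩ := hex m
      exact ⟨e, fun _ => ⟨h1, h2⟩⟩
  choose e he using he
  have hσ : ∀ (p : ℕ) [Fact p.Prime], ∃ σ : (Qd 3 ℤ_[p])ˣ, SigN n Φ n₀ p σ :=
    fun p _ => hA1N n hn Λ Φ n₀ hn₀.1 hex p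
  choose σ hσ using hσ
  obtain ⟨a₀, ha₀⟩ := hA4N Λ n₀ hn₀.1 (hu1N n Λ Φ n₀ hn₀.1 hex) (fun p _ => σ p)
    (fun p _ => (hσ p).exc) (fun p _ => (hA2N n hn Λ Φ n₀ hex p (σ p) (hσ p)).2)
  have hnz : ∀ m : ℕ, 0 < m → NeZero m := fun m hm => ⟨hm.ne'⟩
  rcases hA6N n hn a₀ e (fun m hm => (he m (hnz m hm)).2)
    (fun m m' hm hm' hd => by
      have := hnz m hm
      have := hnz m' hm'
      exact hedG (GN n) Λ Φ (nN n) n₀ hn₀.1 m m' (e m) (e m') hd (he m inferInstance).1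
        (he m' inferInstance).1)
    (fun M m hM hm ht => by
      have := hnz m hm
      have := hnz M hM
      exact hA5N n Λ Φ n₀ (fun p _ => σ p) (fun p _ => hσ p) a₀ ha₀ M m (e m)
        (he m inferInstance).1 ht) with h | h
  · refine ⟨n₀, hn₀, ?_⟩
    intro m hm
    have h1 := (he m hm).1
    have h2 := h m (Nat.pos_of_ne_zero hm.out)
    unfold ExG at h1
    rw [h1, NA_congr n₀ m h2, NA_one]
  · refine ⟨(zpowGroupHom (-1)).comp n₀, ⟨?_, ?_⟩, ?_⟩
    · intro x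
      obtain ⟨l, hl⟩ := hn₀.1 (x ^ (-1 : ℤ))
      refine ⟨l, ?_⟩
      show (n₀ l) ^ (-1 : ℤ) = x
      rw [hl, zpow_neg_one, zpow_neg_one, inv_inv]
    · obtain ⟨E, hE, h1⟩ := hn₀.2
      refine ⟨E, hE, fun A _ f x hx => h1 A f x ?_⟩
      have h2 : (n₀ x) ^ (-1 : ℤ) = 1 := hx
      rwa [zpow_neg_one, inv_eq_one] at h2
    · intro m hm
      have h1 := (he m hm).1
      have h2 := h m (Nat.pos_of_ne_zero hm.out)
      unfold ExG at h1
      rw [h1]
      exact NA_congr n₀ m (by rw [sub_neg_eq_add]; exact h2)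

end Pool.Agent.F8
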