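import Pool.Agent.Lib.MP_305fdd_al.F8.StmNT

/-!
# MP_305fdd_al, cyclic covers of the figure-eight knot complement: [F8N NT] main result of block NT
-/

set_option autoImplicit false

namespace Pool.Agent.F8

open Pool.Agent.MP_305fdd_al Pool.Agent.Lib.MP_305fdd_al Pool.Agent.F2X
open scoped QuadraticAlgebra

/-- [F8N NT] MAIN RESULT of block NT: the character `T` with values in `ℤ[ω]` and the
representation `s` over `AlgebraicClosure ℚ`. -/
theorem p_NT (hCNq : S_CNq) (hval : S_val) (hrL : S_rL) : S_NT := by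
  intro n hn Λ _ _ Φ nL Ψ hs hC hT
  obtain ⟨w, hw, s, hCN⟩ := hCNq n (by omega) Λ Φ nL Ψ hs hC hT
  have hr : ∀ (p : ℕ) [Fact p.Prime], ∃ r : Λ →* SL2 (Es ℤ_[p]), ∀ k : ℕ,
      (SLm (Qd.map (-1) (PadicInt.toZModPow k))).comp r = Φ.toFun _ (rE n (ZMod (p ^ k))) :=
    fun p _ => hrL n Λ Φ p
  choose r hr using hr
  choose T hT1 hT2 using hval n hn Λ Φ nL Ψ hs hC hT w hw s hCN r hr
  refine ⟨T, s, w, ew hw, hT1, hCN.1, ?_⟩
  intro p _ k g
  have h1 := DFunLike.congr_fun (hr p k) g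
  rw [← h1]
  have h2 : tr (((SLm (Qd.map (-1) (PadicInt.toZModPow k))).comp (r p)) g) =
      Qd.map (-1) (PadicInt.toZModPow k) (tr (r p g)) := tr_map _ _
  rw [h2, hT2 g p, Qd.map_apply, Qd.map_apply, Qd.map_apply]
  simp

end Pool.Agent.F8
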