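import Pool.Agent.Lib.MP_305fdd_al.F8.StmNA

/-!
# MP_305fdd_al, cyclic covers of the figure-eight knot complement: the piece TN
-/

set_option autoImplicit false

namespace Pool.Agent.F8

open Pool.Agent.MP_305fdd_al Pool.Agent.Lib.MP_305fdd_al Pool.Agent.F2X
open scoped QuadraticAlgebra

private theorem TN_pow {R : Type} [CommRing R] (t : Rˣ) (n : ℕ) :
    (⟨t, 1, 0⟩ : Q2 R) ^ n = ⟨t ^ n, 1, 0⟩ := by
  induction n with
  | zero => rw [pow_zero, pow_zero]; rfl
  | succ n ih =>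
    rw [pow_succ, ih]
    apply Q2.ext
    · simp [pow_succ]
    · simp
    · simp

private theorem TN_tN (n : ℕ) (R : Type) [CommRing R] :
    TN n R (tN n) = ⟨thu 3 R ^ n, 1, 0⟩ := by
  show T1 R (toG8 n (tN n)) = _
  rw [toG8_tN, map_pow]
  unfold T1
  rw [Th1_aa, TN_pow]

private theorem TN_gb (n : ℕ) (R : Type) [CommRing R] :
    TN n R (iN n gb) = ⟨1, 1, ![1, 0]⟩ := by
  show T1 R (toG8 n (iN n gb)) = _
  rw [toG8_iN]
  exact Th1_vv _ _

theorem p_TN (hmT : S_mT) : S_TN := by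
  refine ⟨?_, ?_⟩
  · intro n R S _ _ f
    unfold TN
    rw [← MonoidHom.comp_assoc, (hmT R S f).1]
  · intro n R _
    refine ⟨?_, ?_, ?_⟩
    · unfold TN T1
      rw [← MonoidHom.comp_assoc, tH_Th1]
      apply homN_ext
      · intro w
        show pw (thu 3 R) (n8 (toG8 n (iN n w))) = pw (thu 3 R ^ n) (nN n (iN n w))
        rw [toG8_iN, n8_inl, nN_iN, map_one, map_one]
      · show pw (thu 3 R) (n8 (toG8 n (tN n))) = pw (thu 3 R ^ n) (nN n (tN n))
        rw [toG8_tN, map_pow, map_pow, n8_aa, nN_tN, pw_ofAdd, pw_ofAdd, zpow_one, zpow_one]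
    · unfold TN T1
      rw [← MonoidHom.comp_assoc, mH_Th1]
      rfl
    · rw [TN_tN, TN_gb]
      simp [Q2.W, Q2.X, Matrix.det_fin_two, thu_val]

end Pool.Agent.F8
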