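import Pool.Agent.Lib.MP_305fdd_al.F8.StmNT

/-!
# MP_305fdd_al, cyclic covers of the figure-eight knot complement: scaling
-/

set_option autoImplicit false

namespace Pool.Agent.F8

open Pool.Agent.MP_305fdd_al Pool.Agent.Lib.MP_305fdd_al Pool.Agent.F2X

theorem Wsc_W {G K : Type} [Group G] [Field K] (a : K) (Θ : G →* Q2 K) (g h : G) :
    Q2.W (scl a Θ g) (scl a Θ h) = a • Q2.W (Θ g) (Θ h) := by
  have h1 : Q2.W (scl a Θ g) (scl a Θ h) = (Q2.X (Θ g)).det • (a • (Θ h).v) -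
      (Q2.X (Θ h)).mulVec ((Q2.X (Θ g)).adjugate.mulVec (a • (Θ g).v)) := rfl
  rw [h1, Matrix.mulVec_smul, Matrix.mulVec_smul, smul_comm, ← smul_sub]
  rfl

theorem p_Wsc : S_Wsc := by
  intro G K _ _ a Θ ha
  refine ⟨?_, rfl, rfl⟩
  rintro ⟨g, h, hne⟩
  refine ⟨g, h, ?_⟩
  rw [Wsc_W]
  exact smul_ne_zero ha hne

end Pool.Agent.F8
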