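import Pool.Agent.Lib.MP_305fdd_al.F8.StmNA
import Pool.Agent.Lib.MP_305fdd_al.Solv.Abel

set_option autoImplicit false

namespace Pool.Agent.F8

open Pool.Agent.MP_305fdd_al Pool.Agent.Lib.MP_305fdd_al Pool.Agent.F2X
open Pool.Agent.Lib.MP_305fdd_al.Solv
open scoped QuadraticAlgebra

private def aLN_e0 : Multiplicative ℤ ≃* Multiplicative (Fin 1 → ℤ) :=
  { toFun := fun x => Multiplicative.ofAdd ![Multiplicative.toAdd x]
    invFun := fun v => Multiplicative.ofAdd (Multiplicative.toAdd v 0)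
    left_inv := by intro x; rfl
    right_inv := by
      intro v
      apply Multiplicative.toAdd.injective
      funext i
      fin_cases i
      rfl
    map_mul' := by
      intro x y
      apply Multiplicative.toAdd.injective
      funext i
      fin_cases i
      rfl }

private theorem aLN_ix (T : Type) [CommGroup T] [Finite T] (n : ℕ) (hn : Nat.card T ∣ n) :
    ix T n = Nat.card T := by
  have : (powMonoidHom n : T →* T).range = ⊥ := by
    rw [eq_bot_iff]
    rintro _ ⟨t, rfl⟩
    obtain ⟨m, rfl⟩ := hn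
    rw [Subgroup.mem_bot, powMonoidHom_apply, pow_mul, pow_card_eq_one', one_pow]
  unfold ix
  rw [this, Subgroup.index_bot]

/-- splitting -/
private theorem aLN_split (C : Type) [CommGroup C] [Group.FG C] (nC : C →* Multiplicative ℤ)
    (hs : Function.Surjective nC) (E : ℕ) (hE : 0 < E) (hk : ∀ x, nC x = 1 → x ^ E = 1) :
    ∃ (K : Type) (_ : CommGroup K) (_ : Finite K), Nonempty (C ≃* Multiplicative ℤ × K) := by
  obtain ⟨c, hc⟩ := hs (Multiplicative.ofAdd 1)
  have hcz : ∀ z : Multiplicative ℤ, nC (c ^ (Multiplicative.toAdd z)) = z := by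
    intro z
    rw [map_zpow, hc, ← ofAdd_zsmul, zsmul_eq_mul, mul_one]
    rfl
  let κ : C →* nC.ker :=
    { toFun := fun x => ⟨x * (c ^ (Multiplicative.toAdd (nC x)))⁻¹, by
        rw [MonoidHom.mem_ker, map_mul, map_inv, hcz, mul_inv_cancel]⟩
      map_one' := by
        apply Subtype.ext
        simp
      map_mul' := by
        intro x y
        apply Subtype.ext
        show x * y * (c ^ (Multiplicative.toAdd (nC (x * y))))⁻¹ =
          x * (c ^ (Multiplicative.toAdd (nC x)))⁻¹ * (y * (c ^ (Multiplicative.toAdd (nC y)))⁻¹)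
        rw [map_mul, toAdd_mul, zpow_add, mul_inv]
        exact mul_mul_mul_comm _ _ _ _ }
  have hκ : ∀ k : nC.ker, κ k.1 = k := by
    intro k
    apply Subtype.ext
    show k.1 * (c ^ (Multiplicative.toAdd (nC k.1)))⁻¹ = k.1
    rw [MonoidHom.mem_ker.mp k.2, toAdd_one, zpow_zero, inv_one, mul_one]
  have hfg : Group.FG nC.ker := Group.fg_of_surjective (f := κ) (fun k => ⟨k.1, hκ k⟩)
  have hfin : Finite nC.ker := by
    apply CommGroup.finite_of_fg_isMulTorsion
    intro x
    rw [isOfFinOrder_iff_pow_eq_one]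
    exact ⟨E, hE, Subtype.ext (hk x.1 (MonoidHom.mem_ker.mp x.2))⟩
  refine ⟨nC.ker, inferInstance, hfin, ⟨MulEquiv.ofBijective (nC.prod κ) ⟨?_, ?_⟩⟩⟩
  · rw [injective_iff_map_eq_one]
    intro x hx
    have h1 : nC x = 1 := congrArg Prod.fst hx
    have h2 : κ x = 1 := congrArg Prod.snd hx
    have h3 := hκ ⟨x, MonoidHom.mem_ker.mpr h1⟩
    rw [h2] at h3
    exact (congrArg Subtype.val h3).symm
  · rintro ⟨z, k⟩
    refine ⟨k.1 * c ^ (Multiplicative.toAdd z), ?_⟩
    have h1 : nC (k.1 * c ^ (Multiplicative.toAdd z)) = z := by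
      rw [map_mul, MonoidHom.mem_ker.mp k.2, hcz, one_mul]
    apply Prod.ext
    · exact h1
    · apply Subtype.ext
      show k.1 * c ^ (Multiplicative.toAdd z) *
        (c ^ (Multiplicative.toAdd (nC (k.1 * c ^ (Multiplicative.toAdd z)))))⁻¹ = k.1
      rw [h1, mul_assoc, mul_inv_cancel, mul_one]

theorem p_aLN : S_aLN := by
  intro G Λ _ _ _ _ h nG hG
  obtain ⟨hGs, E, hE, hGk⟩ := hG
  have h1 := same_ab h
  have hfgB : Group.FG (Abelianization Λ) := Group.fg_of_surjective of_surj
  have hfgC : Group.FG (Abelianization G) := Group.fg_of_surjective of_surj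
  have hlift : ∀ x, Abelianization.lift nG (Abelianization.of x) = nG x := fun x =>
    Abelianization.lift_apply_of nG x
  obtain ⟨K, _, _, ⟨eC⟩⟩ := aLN_split (Abelianization G) (Abelianization.lift nG) (by
    intro z
    obtain ⟨g, rfl⟩ := hGs z
    exact ⟨Abelianization.of g, hlift g⟩) E hE (by
    intro x hx
    obtain ⟨g, rfl⟩ := of_surj x
    rw [hlift] at hx
    exact hGk _ Abelianization.of g hx)
  obtain ⟨r, T, _, _, ⟨eB⟩⟩ := exists_free_prod (Abelianization Λ)
  have key : ∀ n : ℕ, 0 < n → n ^ r * ix T n = n ^ 1 * ix K n := by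
    intro n hn
    rw [← ix_free r n hn, ← ix_prod, ← ix_congr eB, ix_eq h1 hn, ix_congr eC, ix_prod,
      ix_congr aLN_e0, ix_free 1 n hn]
  set t := Nat.card T with ht
  set u := Nat.card K with hu
  have htpos : 0 < t := Nat.card_pos
  have hupos : 0 < u := Nat.card_pos
  have h2 := key (t * u) (by positivity)
  have h3 := key (2 * (t * u)) (by positivity)
  rw [aLN_ix T (t * u) ⟨u, rfl⟩, aLN_ix K (t * u) ⟨t, mul_comm _ _⟩] at h2
  rw [aLN_ix T (2 * (t * u)) ⟨2 * u, by rw [← ht]; ring⟩,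
    aLN_ix K (2 * (t * u)) ⟨2 * t, by rw [← hu]; ring⟩, mul_pow 2 (t * u) r, mul_assoc,
    mul_pow 2 (t * u) 1, mul_assoc, ← ht, ← hu] at h3
  rw [← ht, ← hu] at h2
  rw [h2] at h3
  have h4 : 2 ^ r = 2 ^ 1 := Nat.eq_of_mul_eq_mul_right (by positivity) h3
  have hr : r = 1 := Nat.pow_right_injective (le_refl 2) h4
  subst hr
  refine ⟨(MonoidHom.fst _ _).comp ((MulEquiv.prodCongr aLN_e0.symm (MulEquiv.refl T)).toMonoidHom.comp
    (eB.toMonoidHom.comp Abelianization.of)), ?_, t, htpos, ?_⟩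
  · intro z
    obtain ⟨b, hb⟩ := eB.surjective (aLN_e0 z, 1)
    obtain ⟨g, rfl⟩ := of_surj b
    refine ⟨g, ?_⟩
    show aLN_e0.symm (eB (Abelianization.of g)).1 = z
    rw [hb]
    exact aLN_e0.symm_apply_apply z
  · intro A _ f x hx
    have hx1 : aLN_e0.symm (eB (Abelianization.of x)).1 = 1 := hx
    have hx2 : (eB (Abelianization.of x)).1 = 1 := by
      apply aLN_e0.symm.injective
      rw [hx1, map_one]
    have hx3 : (Abelianization.of x) ^ t = 1 := by
      apply eB.injective
      rw [map_pow, map_one]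
      apply Prod.ext
      · rw [Prod.pow_fst, hx2, one_pow]
        rfl
      · rw [Prod.pow_snd, ht]
        exact pow_card_eq_one'
    rw [← Abelianization.lift_apply_of f x, ← map_pow, hx3, map_one]

end Pool.Agent.F8
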