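import Pool.Agent.Lib.MP_305fdd_al.F8.StmNA

/-!
# MP_305fdd_al, cyclic covers of the figure-eight knot complement: proof of `S_abN`
-/

set_option autoImplicit false

namespace Pool.Agent.F8

open Pool.Agent.MP_305fdd_al Pool.Agent.Lib.MP_305fdd_al Pool.Agent.F2X
open scoped QuadraticAlgebra

/-- the abelianisation of `GN n` -/
theorem p_abN (hchn : S_chn) (hLu : S_Lu) : S_abN := by
  intro n hn
  have hL : 2 < Lu n := by
    obtain ⟨k, rfl⟩ : ∃ k, n = k + 1 := ⟨n - 1, by omega⟩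
    exact (hLu k).2.2.2
  refine ⟨?_, (Lu n - 2).toNat, by omega, ?_⟩
  · intro z
    refine ⟨tN n ^ (Multiplicative.toAdd z), ?_⟩
    rw [map_zpow, nN_tN, ← ofAdd_zsmul]
    simp
  · intro A _ f x hx
    obtain ⟨w, k, rfl⟩ := GN_cases x
    rw [map_mul, map_zpow, nN_iN, nN_tN, one_mul, ← ofAdd_zsmul] at hx
    have hk : k = 0 := by
      have h1 : k • (1 : ℤ) = 0 := hx
      simpa using h1
    subst hk
    rw [zpow_zero, mul_one]
    have h2 : f (iN n ((phi ^ n) w)) = f (iN n w) := by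
      rw [← tN_conj, map_mul, map_mul, map_inv, mul_comm (f (tN n)), mul_inv_cancel_right]
    have h3 : f (iN n ((phi ^ n) ((phi ^ n) w))) = f (iN n ((phi ^ n) w)) := by
      rw [← tN_conj n ((phi ^ n) w), map_mul, map_mul, map_inv, mul_comm (f (tN n)),
        mul_inv_cancel_right]
    have h4 := hchn n A (f.comp (iN n)) w
    rw [MonoidHom.comp_apply, MonoidHom.comp_apply, MonoidHom.comp_apply, h3, h2] at h4
    have h5 : f (iN n w) ^ (Lu n - 2) = 1 := by
      have h6 : f (iN n w) ^ (Lu n - 2) = f (iN n w) ^ (Lu n) * (f (iN n w))⁻¹ * (f (iN n w))⁻¹ := by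
        rw [show Lu n - 2 = Lu n - 1 - 1 by ring, zpow_sub_one, zpow_sub_one]
      rw [h6, ← h4, mul_inv_cancel]
    rw [← zpow_natCast, Int.toNat_of_nonneg (by omega), h5]

end Pool.Agent.F8
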