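import Pool.Agent.Lib.MP_305fdd_al.F8.StmNA

set_option autoImplicit false

namespace Pool.Agent.F8

open Pool.Agent.MP_305fdd_al Pool.Agent.Lib.MP_305fdd_al Pool.Agent.F2X
open scoped QuadraticAlgebra

private theorem chn_vec {A : Type} [CommGroup A] (f : F →* A) (w : F) :
    f w = f ga ^ (vec w 0) * f gb ^ (vec w 1) := by
  let h : F →* A :=
    { toFun := fun w => f ga ^ (vec w 0) * f gb ^ (vec w 1)
      map_one' := by simp
      map_mul' := fun x y => by
        rw [vec_mul, Pi.add_apply, Pi.add_apply, zpow_add, zpow_add]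
        exact mul_mul_mul_comm _ _ _ _ }
  have hfh : f = h := by
    ext j
    show f (FreeGroup.of j) =
      f ga ^ (vec (FreeGroup.of j) 0) * f gb ^ (vec (FreeGroup.of j) 1)
    rw [vec_of]
    fin_cases j <;> simp
  exact DFunLike.congr_fun hfh w

private theorem chn_mat (M : Matrix (Fin 2) (Fin 2) ℤ) (u : Fin 2 → ℤ) (L : ℤ)
    (ht : M.trace = L) (hd : M.det = 1) (i : Fin 2) :
    M.mulVec (M.mulVec u) i = L * M.mulVec u i - u i := by
  rw [Matrix.trace_fin_two] at ht
  rw [Matrix.det_fin_two] at hd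
  subst ht
  fin_cases i
  · simp [Matrix.mulVec, dotProduct, Fin.sum_univ_two]
    linear_combination (- u 0) * hd
  · simp [Matrix.mulVec, dotProduct, Fin.sum_univ_two]
    linear_combination (- u 1) * hd

theorem p_chn (hLu : S_Lu) : S_chn := by
  intro n A _ f w
  obtain ⟨ht, hd, _, _⟩ := hLu n
  have h := chn_mat (AM (phi ^ n)).val (vec w) (Lu n) ht hd
  rw [chn_vec f ((phi ^ n) ((phi ^ n) w)), AM_vec, AM_vec, h 0, h 1,
    chn_vec f ((phi ^ n) w), AM_vec, chn_vec f w, zpow_sub, zpow_sub, mul_zpow, mul_inv,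
    ← zpow_mul, ← zpow_mul, mul_comm (Lu n), mul_comm (Lu n)]
  exact mul_mul_mul_comm _ _ _ _

end Pool.Agent.F8
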