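import Pool.Agent.Lib.MP_305fdd_al.F8.StmNA

/-!
# MP_305fdd_al: cyclic covers of the figure-eight knot complement: piece [F8N edG]
-/

set_option autoImplicit false

namespace Pool.Agent.F8

open Pool.Agent.MP_305fdd_al Pool.Agent.Lib.MP_305fdd_al Pool.Agent.F2X
open scoped QuadraticAlgebra

theorem p_edG : S_edG := by
  intro G Λ _ _ Φ nG n hn m m' _ _ e e' hd h h'
  unfold ExG at h h'
  let f : Multiplicative (ZMod m') →* Multiplicative (ZMod m) :=
    AddMonoidHom.toMultiplicative (ZMod.castHom hd (ZMod m)).toAddMonoidHom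
  have hf : f.comp (redZ m') = redZ m := by
    ext
    show Multiplicative.toAdd (f (redZ m' (Multiplicative.ofAdd 1))) =
      Multiplicative.toAdd (redZ m (Multiplicative.ofAdd 1))
    rw [redZ_ofAdd, redZ_ofAdd]
    show ZMod.castHom hd (ZMod m) ((1 : ℤ) : ZMod m') = ((1 : ℤ) : ZMod m)
    rw [map_intCast]
  have h1 : (redZ m).comp ((zpowGroupHom e).comp n) = (redZ m).comp ((zpowGroupHom e').comp n) := by
    rw [← h, ← hf, MonoidHom.comp_assoc, Φ.nat, h', MonoidHom.comp_assoc]
  obtain ⟨x, hx⟩ := hn (Multiplicative.ofAdd 1)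
  have h2 := DFunLike.congr_fun h1 x
  have h3 : ∀ e : ℤ, (redZ m).comp ((zpowGroupHom e).comp n) x =
      Multiplicative.ofAdd (e : ZMod m) := by
    intro e
    show redZ m ((n x) ^ e) = _
    rw [hx, ← ofAdd_zsmul, smul_eq_mul, mul_one, redZ_ofAdd]
  rw [h3, h3] at h2
  have h4 : (e : ZMod m) = (e' : ZMod m) := Multiplicative.ofAdd.injective h2
  exact (ZMod.intCast_eq_intCast_iff_dvd_sub e' e m).1 h4.symm

end Pool.Agent.F8
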