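import Pool.Agent.Lib.MP_305fdd_al.F8.StmNT

/-!
# MP_305fdd_al, block NT, piece emb: embeddings with a given value at `w`
-/

set_option autoImplicit false

namespace Pool.Agent.F8

open Pool.Agent.MP_305fdd_al Pool.Agent.Lib.MP_305fdd_al Pool.Agent.F2X

noncomputable section

theorem p_emb : S_emb := by
  intro p _ w₀ hw₀ w hw
  have hmin : minpoly ℚ w₀ = Polynomial.cyclotomic 3 ℚ := by
    symm
    apply minpoly.eq_of_irreducible_of_monic
    · exact Polynomial.cyclotomic.irreducible_rat (by norm_num)
    · rw [Polynomial.cyclotomic_three, map_add, map_add, map_pow, Polynomial.aeval_X, map_one,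
        pow_two]
      exact hw₀
    · exact Polynomial.cyclotomic.monic 3 ℚ
  have hroot : Polynomial.aeval w (minpoly ℚ w₀) = 0 := by
    rw [hmin, Polynomial.cyclotomic_three, map_add, map_add, map_pow, Polynomial.aeval_X, map_one,
        pow_two]
    exact hw
  obtain ⟨φ, hφ⟩ := IntermediateField.exists_algHom_of_splits_of_aeval (F := ℚ)
    (E := AlgebraicClosure ℚ) (K := Fl p) (fun s => ⟨(AlgebraicClosure.isAlgebraic ℚ).isAlgebraic s |>.isIntegral, IsAlgClosed.splits _⟩) hroot
  exact ⟨φ.toRingHom, hφ⟩

end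

end Pool.Agent.F8
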