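import Pool.Agent.Lib.MP_305fdd_al.F8.StmNA

/-!
# MP_305fdd_al: cyclic covers of the figure-eight knot complement: piece [F8N exG]
-/

set_option autoImplicit false

namespace Pool.Agent.F8

open Pool.Agent.MP_305fdd_al Pool.Agent.Lib.MP_305fdd_al Pool.Agent.F2X
open scoped QuadraticAlgebra

theorem p_exG : S_exG := by
  intro G Λ _ _ Φ nG nL hnG hnL m _
  obtain ⟨hsur, E, hE, hEx⟩ := hnL
  obtain ⟨f, hf⟩ : ∃ f, f = Φ.toFun (Multiplicative (ZMod m)) ((redZ m).comp nG) := ⟨_, rfl⟩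
  have hE' : NeZero E := ⟨hE.ne'⟩
  have hmE : NeZero (m * E) := ⟨mul_ne_zero (NeZero.ne m) hE.ne'⟩
  -- `f` is trivial on the kernel of `nL`
  have hker : ∀ x, nL x = 1 → f x = 1 := by
    intro x hx
    have h1 := hEx _ (Φ.toFun (Multiplicative (ZMod (m * E))) ((redZ (m * E)).comp nG)) x hx
    let r : Multiplicative (ZMod (m * E)) →* Multiplicative (ZMod m) :=
      AddMonoidHom.toMultiplicative (ZMod.castHom (Dvd.intro E rfl) (ZMod m)).toAddMonoidHom
    have hr : r.comp (redZ (m * E)) = redZ m := by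
      ext
      show Multiplicative.toAdd (r (redZ (m * E) (Multiplicative.ofAdd 1))) =
        Multiplicative.toAdd (redZ m (Multiplicative.ofAdd 1))
      rw [redZ_ofAdd, redZ_ofAdd]
      show ZMod.castHom (Dvd.intro E rfl) (ZMod m) ((1 : ℤ) : ZMod (m * E)) = ((1 : ℤ) : ZMod m)
      rw [map_intCast]
    have h2 : f = r.comp (Φ.toFun (Multiplicative (ZMod (m * E))) ((redZ (m * E)).comp nG)) := by
      rw [hf, ← hr, MonoidHom.comp_assoc, Φ.nat]
    obtain ⟨a, ha⟩ := ZMod.intCast_surjective (Multiplicative.toAdd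
      (Φ.toFun (Multiplicative (ZMod (m * E))) ((redZ (m * E)).comp nG) x))
    have h3 : ((E * a : ℤ) : ZMod (m * E)) = 0 := by
      have h4 := congrArg Multiplicative.toAdd h1
      rw [toAdd_pow, ← ha, toAdd_one, nsmul_eq_mul] at h4
      push_cast
      exact h4
    rw [ZMod.intCast_zmod_eq_zero_iff_dvd] at h3
    have h5 : (m : ℤ) ∣ a := by
      have h6 : ((m * E : ℕ) : ℤ) = (E : ℤ) * (m : ℤ) := by push_cast; ring
      rw [h6] at h3
      exact Int.dvd_of_mul_dvd_mul_left (by exact_mod_cast hE.ne') h3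
    rw [h2]
    apply Multiplicative.toAdd.injective
    show ZMod.castHom (Dvd.intro E rfl) (ZMod m) (Multiplicative.toAdd
      (Φ.toFun (Multiplicative (ZMod (m * E))) ((redZ (m * E)).comp nG) x)) = 0
    rw [← ha, map_intCast, ZMod.intCast_zmod_eq_zero_iff_dvd]
    exact h5
  obtain ⟨l₀, hl₀⟩ := hsur (Multiplicative.ofAdd 1)
  obtain ⟨e, he⟩ : ∃ e : ℤ, (e : ZMod m) = Multiplicative.toAdd (f l₀) := ZMod.intCast_surjective _
  have hfx : ∀ x, f x = (f l₀) ^ (Multiplicative.toAdd (nL x)) := by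
    intro x
    have h1 := hker (x * l₀ ^ (-(Multiplicative.toAdd (nL x)))) (by
      rw [map_mul, map_zpow, hl₀, ← ofAdd_zsmul, smul_eq_mul, mul_one, ofAdd_neg, ofAdd_toAdd,
        mul_inv_cancel])
    rw [map_mul, map_zpow, zpow_neg, mul_inv_eq_one] at h1
    exact h1
  have hEe : ExG Φ nG nL m e := by
    unfold ExG
    rw [← hf]
    apply MonoidHom.ext
    intro x
    apply Multiplicative.toAdd.injective
    show Multiplicative.toAdd (f x) = Multiplicative.toAdd (redZ m ((nL x) ^ e))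
    rw [hfx x, map_zpow (redZ m) (nL x) e, toAdd_zpow, toAdd_zpow, zsmul_eq_mul, zsmul_eq_mul, he,
      mul_comm]
    rfl
  refine ⟨e, hEe, ?_⟩
  obtain ⟨g, hg⟩ := hnG (Multiplicative.ofAdd 1)
  have h1 : (Multiplicative.ofAdd (1 : ZMod m)) ∈
      (Φ.toFun (Multiplicative (ZMod m)) ((redZ m).comp nG)).range := by
    rw [Φ.range_eq]
    refine ⟨g, ?_⟩
    show redZ m (nG g) = _
    rw [hg, redZ_ofAdd, Int.cast_one]
  obtain ⟨l, hl⟩ := h1
  unfold ExG at hEe
  rw [hEe] at hl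
  have h2 : (redZ m) ((nL l) ^ e) = Multiplicative.ofAdd (1 : ZMod m) := hl
  rw [map_zpow] at h2
  have h3 := congrArg Multiplicative.toAdd h2
  rw [toAdd_zpow, zsmul_eq_mul, toAdd_ofAdd] at h3
  have h4 : (e : ZMod m) * ((Multiplicative.toAdd (nL l) : ℤ) : ZMod m) = 1 := h3
  have h5 : (m : ℤ) ∣ e * Multiplicative.toAdd (nL l) - 1 := by
    rw [← ZMod.intCast_zmod_eq_zero_iff_dvd]
    push_cast
    rw [h4, sub_self]
  obtain ⟨c, hc⟩ := h5
  exact ⟨Multiplicative.toAdd (nL l), -c, by linear_combination hc⟩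

end Pool.Agent.F8
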