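import Pool.Agent.Lib.MP_305fdd_al.F8.StmNT

/-!
# MP_305fdd_al, cyclic covers of the figure-eight knot complement: the piece exT
-/

set_option autoImplicit false

namespace Pool.Agent.F8

open Pool.Agent.MP_305fdd_al Pool.Agent.Lib.MP_305fdd_al Pool.Agent.F2X

theorem p_exT (hmt : S_mt) : S_exT := by
  intro G L _ _ Ψ R _ _ ρ σ
  constructor
  · rintro ⟨Θ, h1, h2, h3⟩
    obtain ⟨m1, m2, m3, -⟩ := hmt G L Ψ R Θ
    refine ⟨Ψ.toFun _ Θ, ?_, ?_, m3.2 h3⟩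
    · rw [m2, h1]
    · rw [m1, h2]
  · rintro ⟨Θ, h1, h2, h3⟩
    obtain ⟨m1, m2, m3, -⟩ := hmt G L Ψ R (Ψ.invFun _ Θ)
    rw [Ψ.right_inv] at m1 m2 m3
    refine ⟨Ψ.invFun _ Θ, ?_, ?_, m3.1 h3⟩
    · apply Ψ.injective
      rw [← m2, h1]
    · apply Ψ.injective
      rw [← m1, h2]

end Pool.Agent.F8
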