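import Pool.Agent.Lib.MP_305fdd_al.F8.StmNT

/-!
# MP_305fdd_al, cyclic covers of the figure-eight knot complement: [F8N fct] functoriality
-/

set_option autoImplicit false

namespace Pool.Agent.F8

open Pool.Agent.MP_305fdd_al Pool.Agent.Lib.MP_305fdd_al Pool.Agent.F2X
open scoped QuadraticAlgebra

/-- [F8N fct] functoriality under homomorphisms of fields. -/
theorem p_fct (htl : S_tl) : S_fct := by
  intro K K' _ _ f n Λ _ nL Ψ w hw ρ h
  obtain ⟨⟨g, g', hg⟩, hL⟩ := h
  refine ⟨⟨g, g', ?_⟩, ?_⟩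
  · intro h2
    apply hg
    apply f.injective
    rw [map_ofNat, ← h2]
    exact (tr_map f _).symm
  · intro m
    obtain ⟨c, μ, i1, i2, x, α, τ, hC, hall⟩ := hL m
    have hc : (c : K') ≠ 0 := by
      intro h0
      apply hC.card
      apply f.injective
      rw [map_natCast, map_zero, h0]
    refine htl K K' f (n * (m.val + 1)) (Lm nL (m.val + 1)) (Ψ m) (nm nL (m.val + 1)) w hw
      (ρ.comp (Lm nL (m.val + 1)).subtype) c μ x α τ hC hc (fun i => (hall i).1) (fun i => ?_)
    obtain ⟨Θ, h1, h2, a, b, hab⟩ := (hall i).2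
    obtain ⟨j, hj⟩ := Function.ne_iff.1 hab
    refine ⟨Θ, h1, h2, a, b, j, ?_⟩
    intro h0
    exact hj (f.injective (h0.trans (map_zero f).symm))

end Pool.Agent.F8
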