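import Pool.Agent.Lib.MP_305fdd_al.F8.StmNT

/-!
# MP_305fdd_al, block NT, piece gl2: Galois descent to `ℚ(w)`
-/

set_option autoImplicit false

namespace Pool.Agent.F8

open Pool.Agent.MP_305fdd_al Pool.Agent.Lib.MP_305fdd_al Pool.Agent.F2X

noncomputable section

theorem gl2_img (g : AlgebraicClosure ℚ ≃ₐ[ℚ] AlgebraicClosure ℚ) (w : AlgebraicClosure ℚ)
    (hw : w * w + w + 1 = 0) : g w = w ∨ g w = -1 - w := by
  have h1 : g w * g w + g w + 1 = 0 := by
    have h := congrArg g hw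
    rw [map_add, map_add, map_mul, map_one, map_zero] at h
    exact h
  have h2 : (g w - w) * (g w - (-1 - w)) = 0 := by linear_combination h1 - hw
  rcases mul_eq_zero.mp h2 with h | h
  · left
    exact sub_eq_zero.mp h
  · right
    exact sub_eq_zero.mp h

theorem gl2_ex (hgal : S_gal) (w : AlgebraicClosure ℚ) (hw : w * w + w + 1 = 0) :
    ∃ g : AlgebraicClosure ℚ ≃ₐ[ℚ] AlgebraicClosure ℚ, g w = -1 - w := by
  by_contra hno
  push Not at hno
  have hfix : ∀ g : AlgebraicClosure ℚ ≃ₐ[ℚ] AlgebraicClosure ℚ, g w = w :=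
    fun g => (gl2_img g w hw).resolve_right (hno g)
  obtain ⟨q, hq⟩ := hgal w hfix
  have h3 : algebraMap ℚ (AlgebraicClosure ℚ) (q * q + q + 1) = 0 := by
    rw [map_add, map_add, map_mul, ← hq, map_one]
    exact hw
  have h4 : q * q + q + 1 = 0 := (map_eq_zero (algebraMap ℚ (AlgebraicClosure ℚ))).mp h3
  nlinarith [sq_nonneg (2 * q + 1)]

theorem p_gl2 (hgal : S_gal) : S_gl2 := by
  intro w x hw hx
  obtain ⟨g₀, hg₀⟩ := gl2_ex hgal w hw
  have hg₁ : g₀ (-1 - w) = w := by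
    rw [map_sub, map_neg, map_one, hg₀]
    ring
  have hg₂ : g₀.symm w = -1 - w := by
    rw [← hg₁, AlgEquiv.symm_apply_apply, hg₁]
  have hg₃ : g₀.symm (-1 - w) = w := by
    rw [← hg₀, AlgEquiv.symm_apply_apply]
  have hs : ∀ g : AlgebraicClosure ℚ ≃ₐ[ℚ] AlgebraicClosure ℚ,
      (g x = x ∧ g (g₀ x) = g₀ x ∧ g w = w) ∨ (g x = g₀ x ∧ g (g₀ x) = x ∧ g w = -1 - w) := by
    intro g
    rcases gl2_img g w hw with h | h
    · left
      refine ⟨hx g h, ?_, h⟩
      have h3 := hx ((g₀.trans g).trans g₀.symm) (by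
        rw [AlgEquiv.trans_apply, AlgEquiv.trans_apply, hg₀, map_sub, map_neg, map_one, h, hg₃])
      rw [AlgEquiv.trans_apply, AlgEquiv.trans_apply] at h3
      have h4 := congrArg g₀ h3
      rwa [AlgEquiv.apply_symm_apply] at h4
    · right
      refine ⟨?_, ?_, h⟩
      · have h3 := hx (g.trans g₀.symm) (by rw [AlgEquiv.trans_apply, h, hg₃])
        rw [AlgEquiv.trans_apply] at h3
        have h4 := congrArg g₀ h3
        rwa [AlgEquiv.apply_symm_apply] at h4
      · have h3 := hx (g₀.trans g) (by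
          rw [AlgEquiv.trans_apply, hg₀, map_sub, map_neg, map_one, h]
          ring)
        rwa [AlgEquiv.trans_apply] at h3
  obtain ⟨S, hS⟩ := hgal (x + g₀ x) (by
    intro g
    rcases hs g with ⟨h1, h2, _⟩ | ⟨h1, h2, _⟩
    · rw [map_add, h1, h2]
    · rw [map_add, h1, h2, add_comm])
  obtain ⟨D, hD⟩ := hgal ((x - g₀ x) * (2 * w + 1)) (by
    intro g
    rcases hs g with ⟨h1, h2, h3⟩ | ⟨h1, h2, h3⟩
    · rw [map_mul, map_sub, map_add, map_mul, map_ofNat, map_one, h1, h2, h3]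
    · rw [map_mul, map_sub, map_add, map_mul, map_ofNat, map_one, h1, h2, h3]
      ring)
  refine ⟨S / 2 - D / 6, - D / 3, ?_⟩
  have h2 : (6 : AlgebraicClosure ℚ) ≠ 0 := by norm_num
  have e1 : algebraMap ℚ (AlgebraicClosure ℚ) (S / 2 - D / 6) =
      (algebraMap ℚ (AlgebraicClosure ℚ) S) / 2 - (algebraMap ℚ (AlgebraicClosure ℚ) D) / 6 := by
    rw [map_sub, map_div₀, map_div₀, map_ofNat, map_ofNat]
  have e2 : algebraMap ℚ (AlgebraicClosure ℚ) (- D / 3) =
      - (algebraMap ℚ (AlgebraicClosure ℚ) D) / 3 := by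
    rw [map_div₀, map_neg, map_ofNat]
  rw [e1, e2, ← hS, ← hD]
  have hw2 : (2 * w + 1) * (2 * w + 1) = -3 := by linear_combination 4 * hw
  linear_combination ((x - g₀ x) / 6) * hw2

end

end Pool.Agent.F8
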