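import Pool.Agent.Lib.MP_305fdd_al.F8.StmNT

/-!
# MP_305fdd_al, cyclic covers of the figure-eight knot complement, piece [F8N irF]: irreducibility on the fibre
-/

set_option autoImplicit false

namespace Pool.Agent.F8

open Pool.Agent.MP_305fdd_al Pool.Agent.Lib.MP_305fdd_al Pool.Agent.F2X

/-- the values of the matched representation on the kernel of `nL` are values of `ρ` on the fibre -/
theorem irF_aux (hmp : S_mp) (n : ℕ) (Λ : Type) [Group Λ] (Φ : NatBij (GN n) Λ)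
    (nL : Λ →* Multiplicative ℤ) (hc : CmG Φ (nN n) nL) (A : Type) [Group A] [Finite A]
    (ρ : GN n →* A) (x : Λ) (hx : nL x = 1) : ∃ f : F, ρ (iN n f) = Φ.toFun _ ρ x := by
  have hM : NeZero (Nat.card A) := ⟨Nat.card_pos.ne'⟩
  obtain ⟨g, h1, h2⟩ := (hmp (GN n) Λ Φ A (Multiplicative (ZMod (Nat.card A))) ρ
    ((redZ (Nat.card A)).comp (nN n))).2 x
  rw [hc (Nat.card A)] at h2
  obtain ⟨w, i, rfl⟩ := GN_cases g
  refine ⟨w, ?_⟩
  have h3 : redZ (Nat.card A) (nN n (iN n w * tN n ^ i)) = 1 := by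
    have : redZ (Nat.card A) (nL x) = redZ (Nat.card A) (nN n (iN n w * tN n ^ i)) := h2
    rw [← this, hx, map_one]
  rw [map_mul, map_zpow, nN_iN, nN_tN, one_mul, ← ofAdd_zsmul, smul_eq_mul, mul_one,
    redZ_ofAdd] at h3
  have h4 : ((i : ℤ) : ZMod (Nat.card A)) = 0 := h3
  obtain ⟨j, rfl⟩ := (ZMod.intCast_zmod_eq_zero_iff_dvd _ _).1 h4
  rw [h1, map_mul, map_zpow, zpow_mul, zpow_natCast, pow_card_eq_one', one_zpow, mul_one]

theorem p_irF (hmp : S_mp) : S_irF := by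
  intro n Λ _ Φ nL hc k _ _ ρ hI
  obtain ⟨u, v, huv⟩ := hI
  obtain ⟨f, hf⟩ := irF_aux hmp n Λ Φ nL hc (SL2 k) ρ u.1 u.2
  obtain ⟨f', hf'⟩ := irF_aux hmp n Λ Φ nL hc (SL2 k) ρ v.1 v.2
  refine ⟨f, f', ?_⟩
  have h : ρ (iN n (f * f' * f⁻¹ * f'⁻¹)) =
      ((Φ.toFun _ ρ).comp nL.ker.subtype) (u * v * u⁻¹ * v⁻¹) := by
    rw [map_mul, map_mul, map_mul, map_mul, map_mul, map_mul, map_inv, map_inv, map_inv, map_inv,
      map_mul, map_mul, map_mul, map_inv, map_inv, hf, hf']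
    rfl
  show tr (ρ (iN n (f * f' * f⁻¹ * f'⁻¹))) ≠ 2
  rw [h]
  exact huv

end Pool.Agent.F8
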