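import Pool.Agent.Lib.MP_305fdd_al.F8.StmNT

/-!
# MP_305fdd_al, cyclic covers of the figure-eight knot complement, piece [F8N irp]

`p`-adic irreducibility on the kernel of `nL`.
-/

set_option autoImplicit false

namespace Pool.Agent.F8

open Pool.Agent.MP_305fdd_al Pool.Agent.Lib.MP_305fdd_al Pool.Agent.F2X
open scoped QuadraticAlgebra

noncomputable section

/-- lifting elements of the fibre to the kernel of `nL` -/
private theorem irp_lift (hmp : S_mp) (n : ℕ) (Λ : Type) [Group Λ] (Φ : NatBij (GN n) Λ)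
    (nL : Λ →* Multiplicative ℤ) (hsurj : Function.Surjective nL) (hcm : CmG Φ (nN n) nL)
    (A : Type) [Group A] [Finite A] (θ : GN n →* A) (w : F) :
    ∃ l ∈ nL.ker, Φ.toFun A θ l = θ (iN n w) := by
  have hM : NeZero (Nat.card A) := ⟨Nat.card_pos.ne'⟩
  obtain ⟨l, hl1, hl2⟩ := (hmp (GN n) Λ Φ A (Multiplicative (ZMod (Nat.card A))) θ
    ((redZ (Nat.card A)).comp (nN n))).1 (iN n w)
  rw [hcm (Nat.card A)] at hl2
  have h1 : redZ (Nat.card A) (nL l) = 1 := by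
    have : ((redZ (Nat.card A)).comp nL) l = redZ (Nat.card A) (nN n (iN n w)) := hl2
    rw [nN_iN, map_one] at this
    exact this
  have h2 : ((Multiplicative.toAdd (nL l) : ℤ) : ZMod (Nat.card A)) = 0 := h1
  obtain ⟨j, hj⟩ := (ZMod.intCast_zmod_eq_zero_iff_dvd _ _).1 h2
  obtain ⟨t0, ht0⟩ := hsurj (Multiplicative.ofAdd 1)
  refine ⟨l * t0 ^ (-(Multiplicative.toAdd (nL l))), ?_, ?_⟩
  · rw [MonoidHom.mem_ker, map_mul, map_zpow, ht0, ← ofAdd_zsmul]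
    apply Multiplicative.toAdd.injective
    rw [toAdd_mul, toAdd_ofAdd, toAdd_one, smul_eq_mul]
    ring
  · have h3 : Φ.toFun A θ t0 ^ (Nat.card A) = 1 := pow_card_eq_one'
    rw [map_mul, map_zpow, hj, hl1, zpow_neg, zpow_mul, zpow_natCast, h3, one_zpow, inv_one, mul_one]

theorem p_irp (hmp : S_mp) (hirn : S_irn) (hnz : S_nz) (hnc : S_nc) : S_irp := by
  intro n Λ _ Φ nL hsurj hcm p _ r hr w hw
  obtain ⟨l, hl0, hl⟩ := irp_lift hmp n Λ Φ nL hsurj hcm _ (rE n (ZMod (p ^ 5))) ga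
  obtain ⟨l', hl0', hl'⟩ := irp_lift hmp n Λ Φ nL hsurj hcm _ (rE n (ZMod (p ^ 5))) gb
  refine ⟨⟨l, hl0⟩, ⟨l', hl0'⟩, ?_⟩
  show tr (SLm (jw (iz p) w hw) (r (l * l' * l⁻¹ * l'⁻¹))) ≠ 2
  have h1 : Qd.map (-1) (PadicInt.toZModPow 5) (tr (r (l * l' * l⁻¹ * l'⁻¹)) - 2) =
      -((4 : ℕ) : Es (ZMod (p ^ 5))) := by
    rw [map_sub, ← tr_map]
    have h2 : SLm (Qd.map (-1) (PadicInt.toZModPow 5)) (r (l * l' * l⁻¹ * l'⁻¹)) =
        rE n (ZMod (p ^ 5)) (iN n (ga * gb * ga⁻¹ * gb⁻¹)) := by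
      have h3 := DFunLike.congr_fun (hr 5) (l * l' * l⁻¹ * l'⁻¹)
      rw [MonoidHom.comp_apply] at h3
      rw [h3]
      simp only [map_mul, map_inv, hl, hl']
    rw [h2]
    have h4 := (hirn (Es (ZMod (p ^ 5))) n (om _) (om_eq _)).1
    rw [h4, map_ofNat]
    push_cast
    ring
  have h5 := ((hnc ℤ_[p] (ZMod (p ^ 5)) (PadicInt.toZModPow 5)).1 (-1)
    (tr (r (l * l' * l⁻¹ * l'⁻¹)) - 2)).1
  rw [h1, QuadraticAlgebra.norm_neg, QuadraticAlgebra.norm_natCast] at h5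
  have h6 : (tr (r (l * l' * l⁻¹ * l'⁻¹)) - 2).norm ≠ 0 := by
    intro h0
    rw [h0, map_zero] at h5
    have h7 : ((16 : ℕ) : ZMod (p ^ 5)) = 0 := by
      rw [← h5]; push_cast; norm_num
    rw [ZMod.natCast_eq_zero_iff] at h7
    have h8 := Nat.le_of_dvd (by norm_num) h7
    have h9 : 2 ^ 5 ≤ p ^ 5 := Nat.pow_le_pow_left (Fact.out (p := p.Prime)).two_le 5
    omega
  have h7 := (hnz p (Fl p)).1 (-1) (jw (iz p) w hw) _ h6
  intro h8
  apply h7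
  rw [tr_map] at h8
  rw [map_sub, h8, map_ofNat, sub_self]

end

end Pool.Agent.F8
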