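import Pool.Agent.Lib.MP_305fdd_al.F8.StmNA

/-!
# MP_305fdd_al: cyclic covers of the figure-eight knot complement: piece [F8N m1G]
-/

set_option autoImplicit false

namespace Pool.Agent.F8

open Pool.Agent.MP_305fdd_al Pool.Agent.Lib.MP_305fdd_al Pool.Agent.F2X
open scoped QuadraticAlgebra

theorem p_m1G (hmt : S_mt) (heuG : S_euG) : S_m1G := by
  intro G Λ _ _ Φ nG nL hex k _ _ N hG
  obtain ⟨τ, hτ, hP⟩ := hG
  choose Θ hΘ1 hΘ2 hΘ3 using hP
  have hm : NeZero (Nat.card kˣ) := ⟨Nat.card_pos.ne'⟩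
  obtain ⟨e, he, a, b, hab⟩ := hex (Nat.card kˣ)
  have hse : ∀ i, (τ i ^ a) ^ e = τ i := by
    intro i
    have h1 : a * e = 1 - b * (Nat.card kˣ : ℤ) := by linear_combination hab
    rw [← zpow_mul, h1, zpow_sub, zpow_one, mul_comm b, zpow_mul, zpow_natCast, pow_card_eq_one',
      one_zpow, inv_one, mul_one]
  have hs : ∀ i, Q2.tH.comp (Φ.invFun _ (Θ i)) = (pw (τ i ^ a)).comp nG := by
    intro i
    apply Φ.injective
    rw [← (hmt G Λ Φ k (Φ.invFun _ (Θ i))).1, Φ.right_inv, hΘ1 i,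
      heuG G Λ Φ nG nL (Nat.card kˣ) e he kˣ (τ i ^ a) pow_card_eq_one', hse i]
  refine ⟨fun i => τ i ^ a, ?_, ?_⟩
  · intro i j hij
    apply hτ
    have h1 : τ i ^ a = τ j ^ a := hij
    rw [← hse i, ← hse j, h1]
  · intro i
    refine ⟨Φ.invFun _ (Θ i), hs i, ?_, ?_⟩
    · apply Φ.injective
      rw [← (hmt G Λ Φ k (Φ.invFun _ (Θ i))).2.1, Φ.right_inv, hΘ2 i, Φ.one]
    · rw [← (hmt G Λ Φ k (Φ.invFun _ (Θ i))).2.2.1, Φ.right_inv]
      exact hΘ3 i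

end Pool.Agent.F8
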