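import Pool.Agent.Lib.MP_305fdd_al.F8.StmNT

/-!
# MP_305fdd_al, cyclic covers, piece [F8N mlt]: products of characters
-/

set_option autoImplicit false

namespace Pool.Agent.F8

open Pool.Agent.MP_305fdd_al Pool.Agent.Lib.MP_305fdd_al Pool.Agent.F2X

/-- Matching of products of homomorphisms to a commutative group. -/
theorem p_mlt : S_mlt := by
  intro G Λ _ _ Φ A _ _ f g
  have h1 : (MonoidHom.fst A A).comp (Φ.toFun (A × A) (f.prod g)) = Φ.toFun A f := by
    rw [← Φ.nat, MonoidHom.fst_comp_prod]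
  have h2 : (MonoidHom.snd A A).comp (Φ.toFun (A × A) (f.prod g)) = Φ.toFun A g := by
    rw [← Φ.nat, MonoidHom.snd_comp_prod]
  have h3 : (MonoidHom.coprod (MonoidHom.id A) (MonoidHom.id A)).comp (f.prod g) = f * g := by
    ext x
    rfl
  rw [← h3, Φ.nat, ← h1, ← h2]
  ext x
  rfl

end Pool.Agent.F8
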