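import Pool.Agent.Lib.MP_305fdd_al.F8.StmNT

set_option autoImplicit false

namespace Pool.Agent.F8

open Pool.Agent.MP_305fdd_al Pool.Agent.Lib.MP_305fdd_al Pool.Agent.F2X
open scoped QuadraticAlgebra

/-- the scalar parts -/
theorem p_mx (hcgu : S_cgu) (hmlt : S_mlt) : S_mx := by
  intro N L _ Ψ nL hC R _ _ μ _ _ x α τ
  rw [hmlt (GN N) L Ψ Rˣ (α.comp x) ((pw τ).comp (nN N)),
    hcgu (GN N) L Ψ (nN N) nL hC Rˣ τ, Ψ.nat α x]

end Pool.Agent.F8
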