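import Pool.Agent.Lib.MP_305fdd_al.F8.StmNA

set_option autoImplicit false

namespace Pool.Agent.F8

open Pool.Agent.MP_305fdd_al Pool.Agent.Lib.MP_305fdd_al Pool.Agent.F2X
open scoped QuadraticAlgebra

theorem nmn_norm (R : Type) [CommRing R] (z : Qd 3 R) :
    z.norm = z.re * z.re + 3 * z.re * z.im + z.im * z.im := by
  rw [QuadraticAlgebra.norm_def]
  push_cast
  ring

theorem nmn_map (R : Type) [CommRing R] (z : Qd 3 ℤ) :
    (Qd.map 3 (Int.castRingHom R) z).norm = ((z.norm : ℤ) : R) := by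
  rw [nmn_norm, nmn_norm, Qd.map_apply]
  simp

theorem p_nmn (hf1 : S_f1) : S_nmn := by
  obtain ⟨h1, h2, h3, -, -, -, h7, -, -⟩ := hf1
  intro n hn
  obtain ⟨j, rfl⟩ : ∃ j, n = j + 1 := ⟨n - 1, by omega⟩
  have hLL : ∀ i : ℕ, (2 : ℤ) < LL ((i : ℤ) + 1) := by
    intro i
    induction i with
    | zero =>
      have h := h7 0
      have h0 : LL ((0 : ℕ) : ℤ) = 2 := by
        unfold LL
        simp [QuadraticAlgebra.trace_def]
      rw [h0] at h
      simpa using h
    | succ i ih =>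
      have h := h7 (i + 1)
      push_cast at h ⊢
      exact lt_trans ih h
  refine ⟨(2 - LL ((j : ℤ) + 1)) * (2 - LL ((j : ℤ) + 1)), ?_, ?_⟩
  · have := hLL j
    exact mul_ne_zero (by omega) (by omega)
  · intro R _
    have hn1 : (th 3 ℤ ^ (j + 1) - 1).norm = 2 - LL ((j : ℤ) + 1) := by
      have h := h1 j
      have h' : (thu 3 ℤ ^ (j + 1)).val = th 3 ℤ ^ (j + 1) := by
        rw [Units.val_pow_eq_pow_val]
        rfl
      rw [h'] at h
      rw [h, nmn_norm, h3 j]
      have h2' := h2 j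
      simp only [QuadraticAlgebra.re_sub, QuadraticAlgebra.im_sub, QuadraticAlgebra.re_one,
        QuadraticAlgebra.im_one]
      linear_combination h2'
    have hm : (th 3 R ^ (j + 1) - 1) * (th 3 R ^ (j + 1) - 1) =
        Qd.map 3 (Int.castRingHom R) ((th 3 ℤ ^ (j + 1) - 1) * (th 3 ℤ ^ (j + 1) - 1)) := by
      rw [map_mul, map_sub, map_pow, map_one, Qd.map_th]
    rw [hm, nmn_map, map_mul, hn1]

end Pool.Agent.F8
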