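import Pool.Agent.Lib.MP_305fdd_al.F8.StmNT

/-!
# MP_305fdd_al, cyclic covers of the figure-eight knot complement, piece [F8N pe]:
the matched affine representation over a good ring
-/

set_option autoImplicit false

namespace Pool.Agent.F8

open Pool.Agent.MP_305fdd_al Pool.Agent.Lib.MP_305fdd_al Pool.Agent.F2X
open scoped QuadraticAlgebra

noncomputable section

private theorem pe_rN (N : ℕ) {R : Type} [CommRing R] {w w' : R} (hw : w * w + w + 1 = 0)
    (hw' : w' * w' + w' + 1 = 0) (h : w = w') : rN N w hw = rN N w' hw' := by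
  subst h
  rfl

private theorem pe_Q2map {R S T : Type} [CommRing R] [CommRing S] [CommRing T] (f : R →+* S)
    (g : S →+* T) : (Q2.map g).comp (Q2.map f) = Q2.map (g.comp f) := by
  ext1 x
  apply Q2.ext
  · rfl
  · rfl
  · rfl

private theorem pe_SLm {R S T : Type} [CommRing R] [CommRing S] [CommRing T] (f : R →+* S)
    (g : S →+* T) (x : SL2 R) : SLm g (SLm f x) = SLm (g.comp f) x := rfl

theorem p_pe (hlh : S_lh) (hmx : S_mx) (hmt : S_mt) (hmp : S_mp) (hwm : S_wm) : S_pe := by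
  intro p _ N L _ Ψ nL hcm r hr R _ ι f Rk _ π q fk hLR w hw μ _ _ x α τ Θ hm ht hnc
  have hfin : ∀ k, Finite (Rk k) := hLR.fin
  have hext : ∀ a b : R, (∀ k, π k a = π k b) → a = b := by
    intro a b hab
    obtain ⟨y, -, hy⟩ := hLR.lim.2 (fun k => π k b) (fun k => by
      have := DFunLike.congr_fun (hLR.lim.1 k) b
      rwa [RingHom.comp_apply] at this)
    rw [hy a hab, hy b fun k => rfl]
  have hcomp : ∀ k, (Q2.map (q k)).comp (Ψ.toFun _ ((Q2.map (π (k + 1))).comp Θ)) =
      Ψ.toFun _ ((Q2.map (π k)).comp Θ) := by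
    intro k
    rw [← Ψ.nat, ← MonoidHom.comp_assoc, pe_Q2map, hLR.lim.1 k]
  obtain ⟨Θ', hΘ'⟩ := hlh R Rk π q hLR.lim L (fun k => Ψ.toFun _ ((Q2.map (π k)).comp Θ)) hcomp
  have hΘl : ∀ k l, Q2.map (π k) (Θ' l) = Ψ.toFun _ ((Q2.map (π k)).comp Θ) l :=
    fun k l => DFunLike.congr_fun (hΘ' k) l
  refine ⟨Θ', ?_, ?_, ?_⟩
  · -- the matrix part
    ext1 l
    apply Subtype.ext
    ext1 i j
    apply hext
    intro k
    have hj : (jw (fk k) (π k w) (map_om_eq (π k) hw)).comp
        (Qd.map (-1) (PadicInt.toZModPow k)) = (π k).comp (jw f w hw) := by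
      apply RingHom.ext
      intro z
      have h1 : ∀ a, fk k (PadicInt.toZModPow k a) = π k (f a) :=
        fun a => DFunLike.congr_fun (hLR.ck k) a
      rw [RingHom.comp_apply, RingHom.comp_apply, jw_apply, jw_apply, Qd.map_apply, map_add,
        map_mul, ← h1, ← h1]
    have h2 : Q2.mH.comp ((Q2.map (π k)).comp Θ) =
        (SLm (jw (fk k) (π k w) (map_om_eq (π k) hw))).comp (rE N (ZMod (p ^ k))) := by
      have h3 : Q2.mH.comp ((Q2.map (π k)).comp Θ) = (SLm (π k)).comp (Q2.mH.comp Θ) := rfl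
      rw [h3, hm, map_rN, map_rN]
      exact pe_rN N _ _ (jw_om _ _ _).symm
    have h4 : SLm (π k) (Θ' l).m = SLm (π k) (SLm (jw f w hw) (r l)) := by
      have h5 : SLm (π k) (Θ' l).m =
          (Q2.mH.comp (Ψ.toFun _ ((Q2.map (π k)).comp Θ))) l := by
        rw [MonoidHom.comp_apply, ← hΘl k l]
        rfl
      rw [h5, (hmt _ _ Ψ _ _).2.1, h2, Ψ.nat, ← hr k, pe_SLm, ← hj]
      rfl
    exact congrArg (fun M : SL2 (Rk k) => M.val i j) h4
  · -- the scalar part
    ext1 l
    apply Units.ext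
    apply hext
    intro k
    have h2 : Q2.tH.comp ((Q2.map (π k)).comp Θ) =
        ((Units.map (π k).toMonoidHom).comp α).comp x *
          (pw (Units.map (π k).toMonoidHom τ)).comp (nN N) := by
      have h3 : Q2.tH.comp ((Q2.map (π k)).comp Θ) =
        (Units.map (π k).toMonoidHom).comp (Q2.tH.comp Θ) := rfl
      rw [h3, ht]
      ext1 g
      simp only [MonoidHom.comp_apply, MonoidHom.mul_apply, map_mul, zpowersHom_apply, map_zpow]
    have h4 : Units.map (π k).toMonoidHom (Θ' l).t =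
        Units.map (π k).toMonoidHom ((α.comp (Ψ.toFun μ x) * (pw τ).comp nL) l) := by
      have h5 : Units.map (π k).toMonoidHom (Θ' l).t =
          (Q2.tH.comp (Ψ.toFun _ ((Q2.map (π k)).comp Θ))) l := by
        rw [MonoidHom.comp_apply, ← hΘl k l]
        rfl
      rw [h5, (hmt _ _ Ψ _ _).1, h2, hmx N L Ψ nL hcm]
      simp only [MonoidHom.comp_apply, MonoidHom.mul_apply, map_mul, zpowersHom_apply, map_zpow]
    exact congrArg Units.val h4
  · -- not a coboundary
    obtain ⟨g, h, hgh⟩ := hnc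
    have h1 : ∃ i, Q2.W (Θ g) (Θ h) i ≠ 0 := by
      by_contra hc
      push Not at hc
      exact hgh (funext hc)
    obtain ⟨i, hi⟩ := h1
    have h2 : ∃ k, π k (Q2.W (Θ g) (Θ h) i) ≠ 0 := by
      by_contra hc
      push Not at hc
      apply hi
      apply hext
      intro k
      rw [hc k, map_zero]
    obtain ⟨k, hk⟩ := h2
    obtain ⟨l, hl, -⟩ := (hmp _ _ Ψ _ _ ((Q2.map (π k)).comp Θ) ((Q2.map (π k)).comp Θ)).1 g
    obtain ⟨l', hl', -⟩ := (hmp _ _ Ψ _ _ ((Q2.map (π k)).comp Θ) ((Q2.map (π k)).comp Θ)).1 h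
    refine ⟨l, l', ?_⟩
    intro h0
    apply hk
    have h3 := congrFun h0 i
    rw [← hwm, ← MonoidHom.comp_apply, ← MonoidHom.comp_apply, ← hl, ← hl', ← hΘl, ← hΘl, hwm, h3]
    exact map_zero _

end

end Pool.Agent.F8
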