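import Pool.Agent.Lib.MP_305fdd_al.F8.StmNT

/-!
# MP_305fdd_al, cyclic covers of the figure-eight knot complement, piece pe2
-/

set_option autoImplicit false

namespace Pool.Agent.F8

open Pool.Agent.MP_305fdd_al Pool.Agent.Lib.MP_305fdd_al Pool.Agent.F2X
open scoped QuadraticAlgebra

/-- a root of `t² - s t + 1`, `s` integral -/
theorem pe2_quad {A B : Type} [CommRing A] [CommRing B] (f : A →+* B) {s t : B}
    (hs : f.IsIntegralElem s) (ht : t * t - s * t + 1 = 0) : f.IsIntegralElem t := by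
  letI := f.toAlgebra
  have hs' : IsIntegral A s := hs
  have h1 : IsIntegral (integralClosure A B) t := by
    refine ⟨Polynomial.X ^ 2 + (-(Polynomial.C (⟨s, hs'⟩ : integralClosure A B)) * Polynomial.X +
      1), ?_, ?_⟩
    · apply Polynomial.monic_X_pow_add
      compute_degree
      norm_num
    · simp only [Polynomial.eval₂_add, Polynomial.eval₂_mul, Polynomial.eval₂_neg,
        Polynomial.eval₂_C, Polynomial.eval₂_X, Polynomial.eval₂_one, Polynomial.eval₂_pow]
      have h2 : algebraMap (integralClosure A B) B ⟨s, hs'⟩ = s := rfl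
      rw [h2]
      linear_combination ht
  exact isIntegral_trans t h1

theorem pe2_unit {A B : Type} [CommRing A] [CommRing B] (f : A →+* B) {u : B} {n : ℕ} (hn : 0 < n)
    (hu : u ^ n = 1) : f.IsIntegralElem u := by
  refine ⟨Polynomial.X ^ n - 1, ?_, ?_⟩
  · exact Polynomial.monic_X_pow_sub_C (1 : A) hn.ne'
  · simp [hu]

theorem pe2_zpow {A B : Type} [CommRing A] [CommRing B] (f : A →+* B) (t : Bˣ)
    (h1 : f.IsIntegralElem t.val) (h2 : f.IsIntegralElem (t⁻¹).val) (n : ℤ) :
    f.IsIntegralElem (t ^ n).val := by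
  letI := f.toAlgebra
  have h1' : IsIntegral A t.val := h1
  have h2' : IsIntegral A (t⁻¹).val := h2
  cases n with
  | ofNat k =>
    rw [Int.ofNat_eq_natCast, zpow_natCast, Units.val_pow_eq_pow_val]
    exact h1'.pow k
  | negSucc k =>
    rw [zpow_negSucc, ← inv_pow, Units.val_pow_eq_pow_val]
    exact h2'.pow (k + 1)

theorem pe2_sum {A B : Type} [CommRing A] [CommRing B] (f : A →+* B) {ι : Type} (l : List ι)
    (g : ι → B) (h : ∀ i, f.IsIntegralElem (g i)) : f.IsIntegralElem ((l.map g).sum) := by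
  induction l with
  | nil => simpa using f.isIntegralElem_zero
  | cons a l ih =>
    rw [List.map_cons, List.sum_cons]
    exact RingHom.IsIntegralElem.add f (h a) ih

theorem pe2_rN (N : ℕ) {R : Type} [CommRing R] {w w' : R} (h : w = w') (hw : w * w + w + 1 = 0)
    (hw' : w' * w' + w' + 1 = 0) : rN N w hw = rN N w' hw' := by
  subst h; rfl

theorem pe2_ent (N : ℕ) (p : ℕ) [Fact p.Prime] (w : Fl p) (hw : w * w + w + 1 = 0)
    (hwi : (iz p).IsIntegralElem w) (g : GN N) (i j : Fin 2) :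
    (iz p).IsIntegralElem ((rN N w hw g).val i j) := by
  have h1 : (SLm (jw (iz p) w hw)).comp (rE N ℤ_[p]) = rN N w hw := by
    rw [rE, map_rN]
    exact pe2_rN N (jw_om (iz p) w hw) _ _
  rw [← h1]
  have h2 : ((SLm (jw (iz p) w hw)).comp (rE N ℤ_[p]) g).val i j =
      jw (iz p) w hw ((rE N ℤ_[p] g).val i j) := rfl
  rw [h2, jw_apply]
  exact RingHom.IsIntegralElem.add _ ((iz p).isIntegralElem_map)
    (RingHom.IsIntegralElem.mul _ ((iz p).isIntegralElem_map) hwi)

theorem pe2_inj (p : ℕ) [Fact p.Prime] : Function.Injective (iz p) := by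
  unfold iz
  rw [RingHom.coe_comp]
  refine Function.Injective.comp (algebraMap ℚ_[p] (Fl p)).injective ?_
  intro a b h
  exact Subtype.ext h

theorem p_pe2 (hpe : S_pe) (hlft : S_lft) (hWsc : S_Wsc) (hwm : S_wm) : S_pe2 := by
  intro p _ N L _ Ψ nL hcm r hr w hw μ _ _ x α τ hτ hex
  obtain ⟨Θ, hm, ht, hNC⟩ := hex
  -- integrality
  have hwi : (iz p).IsIntegralElem w := by
    have h1 : (iz p).IsIntegralElem (-1 : Fl p) := by
      have := (iz p).isIntegralElem_map (x := (-1 : ℤ_[p]))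
      rwa [map_neg, map_one] at this
    refine pe2_quad (iz p) h1 ?_
    linear_combination hw
  have hαi : ∀ u : μ, (iz p).IsIntegralElem (α u).val := by
    intro u
    refine pe2_unit (iz p) (n := Nat.card μ) Nat.card_pos ?_
    rw [← Units.val_pow_eq_pow_val, ← map_pow, pow_card_eq_one', map_one, Units.val_one]
  have htr : ∀ g : GN N, (iz p).IsIntegralElem (tr (rN N w hw g)) := by
    intro g
    rw [tr_eq]
    exact RingHom.IsIntegralElem.add _ (pe2_ent N p w hw hwi g 0 0) (pe2_ent N p w hw hwi g 1 1)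
  have hsi : (iz p).IsIntegralElem (sT (rN N w hw) (α.comp x)) := by
    unfold sT
    refine RingHom.IsIntegralElem.sub _ (pe2_sum _ _ _ fun v => ?_) (htr _)
    exact RingHom.IsIntegralElem.mul _ (hαi _) (htr _)
  have hτi : (iz p).IsIntegralElem τ.val := pe2_quad (iz p) hsi hτ
  have hτ' : (τ⁻¹).val = sT (rN N w hw) (α.comp x) - τ.val := by
    have h1 : τ.val * (sT (rN N w hw) (α.comp x) - τ.val) = 1 := by linear_combination -hτ
    calc (τ⁻¹).val = (τ⁻¹).val * (τ.val * (sT (rN N w hw) (α.comp x) - τ.val)) := by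
          rw [h1, mul_one]
      _ = _ := by rw [← mul_assoc, Units.inv_mul, one_mul]
  have hτi' : (iz p).IsIntegralElem (τ⁻¹).val := by
    rw [hτ']
    exact RingHom.IsIntegralElem.sub _ hsi hτi
  have ht' : ∀ g, (Θ g).t = α (x g) * τ ^ (Multiplicative.toAdd (nN N g)) := fun g =>
    DFunLike.congr_fun ht g
  have hti : ∀ g, (iz p).IsIntegralElem (Θ g).t.val := by
    intro g
    rw [ht' g, Units.val_mul]
    exact RingHom.IsIntegralElem.mul _ (hαi _) (pe2_zpow _ τ hτi hτi' _)
  have hmi : ∀ g i j, (iz p).IsIntegralElem ((Θ g).m.val i j) := by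
    intro g i j
    have h1 : (Θ g).m = rN N w hw g := DFunLike.congr_fun hm g
    rw [h1]
    exact pe2_ent N p w hw hwi g i j
  -- the elements
  let z0 : Fin 3 ⊕ μ → Fl p := Sum.elim ![w, τ.val, (τ⁻¹).val] (fun u => (α u).val)
  have hz0 : ∀ s, (iz p).IsIntegralElem (z0 s) := by
    intro s
    rcases s with i | u
    · fin_cases i
      · exact hwi
      · exact hτi
      · exact hτi'
    · exact hαi u
  let e : Fin 3 ⊕ μ ≃ Fin (Nat.card (Fin 3 ⊕ μ)) := Finite.equivFin _
  obtain ⟨a, R, _, ι, f, Rk, _, π, q, fk, Θ', ha, hLR, hz, hΘ'⟩ :=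
    hlft p N Θ (Nat.card (Fin 3 ⊕ μ)) (fun i => z0 (e.symm i)) hti hmi (fun i => hz0 _)
  have hz' : ∀ s, ∃ y, ι y = z0 s := by
    intro s
    obtain ⟨y, hy⟩ := hz (e s)
    exact ⟨y, by rw [hy, Equiv.symm_apply_apply]⟩
  have hι : Function.Injective ι := hLR.inj
  obtain ⟨w', hw1⟩ : ∃ y, ι y = w := hz' (Sum.inl 0)
  obtain ⟨t1, ht1⟩ : ∃ y, ι y = τ.val := hz' (Sum.inl 1)
  obtain ⟨t2, ht2⟩ : ∃ y, ι y = (τ⁻¹).val := hz' (Sum.inl 2)
  have hαy : ∀ u : μ, ∃ y, ι y = (α u).val := fun u => hz' (Sum.inr u)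
  choose αy hαy using hαy
  have hw' : w' * w' + w' + 1 = 0 := by
    apply hι
    rw [map_add, map_add, map_mul, map_one, map_zero, hw1]
    exact hw
  let τ' : Rˣ := ⟨t1, t2, by
      apply hι; rw [map_mul, map_one, ht1, ht2, Units.mul_inv], by
      apply hι; rw [map_mul, map_one, ht1, ht2, Units.inv_mul]⟩
  let αu : μ → Rˣ := fun u => ⟨αy u, αy u⁻¹, by
      apply hι
      rw [map_mul, map_one, hαy, hαy, ← Units.val_mul, ← map_mul, mul_inv_cancel, map_one,
        Units.val_one], by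
      apply hι
      rw [map_mul, map_one, hαy, hαy, ← Units.val_mul, ← map_mul, inv_mul_cancel, map_one,
        Units.val_one]⟩
  have hαu : ∀ u, (αu u).val = αy u := fun u => rfl
  let α' : μ →* Rˣ :=
    { toFun := αu
      map_one' := by
        apply Units.ext
        apply hι
        rw [hαu, hαy, map_one, Units.val_one, Units.val_one, map_one]
      map_mul' := by
        intro u v
        apply Units.ext
        apply hι
        rw [Units.val_mul, map_mul, hαu, hαu, hαu, hαy, hαy, hαy, map_mul, Units.val_mul] }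
  have hUι : Function.Injective (Units.map ι.toMonoidHom) := by
    intro u v huv
    apply Units.ext
    apply hι
    exact congrArg Units.val huv
  have hα' : (Units.map ι.toMonoidHom).comp α' = α := by
    ext u
    exact hαy u
  have hτ'' : Units.map ι.toMonoidHom τ' = τ := by
    apply Units.ext
    exact ht1
  have hpw : (Units.map ι.toMonoidHom).comp (pw τ') = pw τ := by
    ext1
    simp only [MonoidHom.comp_apply, pw_ofAdd, map_zpow, hτ'']
  have hSι : Function.Injective (SLm ι) := by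
    intro A B hAB
    apply Subtype.ext
    ext i j
    apply hι
    have := congrArg (fun M : SL2 (Fl p) => M.val i j) hAB
    exact this
  have hm0 := (hWsc (GN N) (Fl p) (iz p a) Θ (by
    intro h0
    exact ha (pe2_inj p (by rw [h0, map_zero]))))
  obtain ⟨hs1, hs2, hs3⟩ := hm0
  -- the matrix part
  have hmΘ' : Q2.mH.comp Θ' = rN N w' hw' := by
    have h1 : (SLm ι).comp (Q2.mH.comp Θ') = (SLm ι).comp (rN N w' hw') := by
      rw [map_rN, pe2_rN N hw1 _ hw, ← hm, ← hs2, ← hΘ']
      rfl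
    ext1 g
    exact hSι (DFunLike.congr_fun h1 g)
  have htΘ' : Q2.tH.comp Θ' = α'.comp x * (pw τ').comp (nN N) := by
    have h1 : (Units.map ι.toMonoidHom).comp (Q2.tH.comp Θ') =
        (Units.map ι.toMonoidHom).comp (α'.comp x * (pw τ').comp (nN N)) := by
      have h2 : (Units.map ι.toMonoidHom).comp (Q2.tH.comp Θ') =
          Q2.tH.comp ((Q2.map ι).comp Θ') := rfl
      rw [h2, hΘ', hs3, ht, ← hα', ← hpw]
      ext1 g
      simp only [MonoidHom.comp_apply, MonoidHom.mul_apply, map_mul]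
    ext1 g
    exact hUι (DFunLike.congr_fun h1 g)
  have hNΘ' : NC Θ' := by
    obtain ⟨g, h, hgh⟩ := hs1 hNC
    refine ⟨g, h, fun h0 => hgh ?_⟩
    ext i
    have h1 := hwm R (Fl p) ι (Θ' g) (Θ' h) i
    have h2 : Q2.map ι (Θ' g) = scl (iz p a) Θ g := DFunLike.congr_fun hΘ' g
    have h3 : Q2.map ι (Θ' h) = scl (iz p a) Θ h := DFunLike.congr_fun hΘ' h
    rw [h2, h3] at h1
    rw [h1, h0, Pi.zero_apply, map_zero, Pi.zero_apply]
  obtain ⟨Θ2, hm2, ht2', hN2⟩ := hpe p N L Ψ nL hcm r hr R ι f Rk π q fk hLR w' hw' μ x α' τ' Θ'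
    hmΘ' htΘ' hNΘ'
  refine ⟨(Q2.map ι).comp Θ2, ?_, ?_, ?_⟩
  · have h1 : Q2.mH.comp ((Q2.map ι).comp Θ2) = (SLm ι).comp (Q2.mH.comp Θ2) := rfl
    rw [h1, hm2]
    have h2 : ι.comp (jw f w' hw') = jw (iz p) w hw := by
      ext1 y
      rw [RingHom.comp_apply, jw_apply, jw_apply, map_add, map_mul, hw1, ← hLR.cf]
      rfl
    rw [← h2]
    rfl
  · have h2 : Q2.tH.comp ((Q2.map ι).comp Θ2) =
        (Units.map ι.toMonoidHom).comp (Q2.tH.comp Θ2) := rfl
    rw [h2, ht2', ← hα', ← hpw]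
    ext1 g
    simp only [MonoidHom.comp_apply, MonoidHom.mul_apply, map_mul]
  · obtain ⟨g, h, hgh⟩ := hN2
    refine ⟨g, h, fun h0 => hgh ?_⟩
    ext i
    apply hι
    have h1 := hwm R (Fl p) ι (Θ2 g) (Θ2 h) i
    rw [← h1]
    have h3 := congrFun h0 i
    rw [Pi.zero_apply, map_zero]
    exact h3

end Pool.Agent.F8
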