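import Pool.Agent.Lib.MP_305fdd_al.F8.StmNT

/-!
# MP_305fdd_al, cyclic covers of the figure-eight knot complement: functoriality of `sT`
-/

set_option autoImplicit false

namespace Pool.Agent.F8

open Pool.Agent.MP_305fdd_al Pool.Agent.Lib.MP_305fdd_al Pool.Agent.F2X
open scoped QuadraticAlgebra

theorem p_sTm : S_sTm := by
  intro R S _ _ f N ρ χ
  have h1 : ∀ g, tr (((SLm f).comp ρ) g) = f (tr (ρ g)) := fun g => tr_map f (ρ g)
  have h2 : ∀ g, (((Units.map f.toMonoidHom).comp χ) g).val = f (χ g).val := fun g => rfl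
  unfold sT
  rw [map_sub, map_list_sum, List.map_map, h1]
  congr 2
  apply List.map_congr_left
  intro w _
  rw [Function.comp_apply, map_mul f, h1, h2]

end Pool.Agent.F8
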