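import Pool.Agent.Lib.MP_305fdd_al.F8.StmNT

/-!
# [F8N spc] specialisation of `CN`, two representations
-/

set_option autoImplicit false

namespace Pool.Agent.F8

open Pool.Agent.MP_305fdd_al Pool.Agent.Lib.MP_305fdd_al Pool.Agent.F2X

/-- restriction of the data along a split projection -/
theorem spc_SpR {K k : Type} [Field K] [Field k] {R : Subring K} (π : R →+* k) {P G : Type}
    [Group P] [Group G] (pr : P →* G) (inj : G →* P) (h : ∀ g, pr (inj g) = g)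
    (T' : Set (P →* Q2 K)) (X' : Set K) (T : Set (G →* Q2 K)) (X : Set K)
    (hT : ∀ Θ ∈ T, Θ.comp pr ∈ T') (hX : X ⊆ X') (hS : SpR π T' X') : SpR π T X := by
  refine ⟨fun Θ hΘ => ?_, fun x hx => hS.mem x (hX hx), fun x hx hx' h0 =>
    hS.ne x hx (hX hx') h0⟩
  obtain ⟨Θ', h1⟩ := hS.hom _ (hT Θ hΘ)
  refine ⟨Θ'.comp inj, ?_⟩
  ext1 g
  have h2 := DFunLike.congr_fun h1 (inj g)
  show Q2.map R.subtype (Θ' (inj g)) = Θ g
  have h3 : Q2.map R.subtype (Θ' (inj g)) = Θ (pr (inj g)) := h2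
  rw [h3, h]

/-- the group of the data -/
abbrev spc_P {Λ : Type} [Group Λ] (nL : Λ →* Multiplicative ℤ) : Type :=
  Λ × (∀ m : Fin 3, Lm nL (m.val + 1))

theorem spc_fg {Λ : Type} [Group Λ] [Group.FG Λ] (nL : Λ →* Multiplicative ℤ) :
    Group.FG (spc_P nL) := by
  have h : ∀ m : Fin 3, Group.FG (Lm nL (m.val + 1)) := fun m => inferInstance
  infer_instance

/-- the projection to the level `m` -/
def spc_pr {Λ : Type} [Group Λ] (nL : Λ →* Multiplicative ℤ) (m : Fin 3) :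
    spc_P nL →* Lm nL (m.val + 1) :=
  (Pi.evalMonoidHom (fun m : Fin 3 => Lm nL (m.val + 1)) m).comp (MonoidHom.snd _ _)

/-- the injection of the level `m` -/
def spc_in {Λ : Type} [Group Λ] (nL : Λ →* Multiplicative ℤ) (m : Fin 3) :
    Lm nL (m.val + 1) →* spc_P nL :=
  (MonoidHom.inr Λ (∀ m : Fin 3, Lm nL (m.val + 1))).comp
    (MonoidHom.mulSingle (fun m : Fin 3 => Lm nL (m.val + 1)) m)

theorem spc_pr_in {Λ : Type} [Group Λ] (nL : Λ →* Multiplicative ℤ) (m : Fin 3)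
    (g : Lm nL (m.val + 1)) : spc_pr nL m (spc_in nL m g) = g := by
  exact Pi.mulSingle_eq_same (M := fun m : Fin 3 => Lm nL (m.val + 1)) m g

/-- specialisation of `CN` for one representation -/
theorem spc_one (hspl : S_spl) {n : ℕ} {Λ : Type} [Group Λ] (nL : Λ →* Multiplicative ℤ)
    (Ψ : ∀ m : Fin 3, NatBij (GN (n * (m.val + 1))) (Lm nL (m.val + 1)))
    {K : Type} [Field K] (w : K) (hw : w * w + w + 1 = 0) (ρ : Λ →* SL2 K)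
    (hC : CN nL Ψ w hw ρ) :
    ∃ (T : Set (spc_P nL →* Q2 K)) (X : Set K), T.Finite ∧ X.Finite ∧
      ∀ (k : Type) [Field k] (R : Subring K) (π : R →+* k), SpR π T X →
      ∀ (w' : R) (hw' : w' * w' + w' + 1 = 0) (ρ' : Λ →* SL2 R), (w' : K) = w →
      (SLm R.subtype).comp ρ' = ρ → CN nL Ψ (π w') (map_om_eq π hw') ((SLm π).comp ρ') := by
  obtain ⟨⟨u, v, huv⟩, hL⟩ := hC
  have h1 := fun m : Fin 3 => hspl (n * (m.val + 1)) (Lm nL (m.val + 1)) (Ψ m)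
    (nm nL (m.val + 1)) K w hw _ (hL m)
  choose T X hT hX h using h1
  refine ⟨⋃ m : Fin 3, (fun Θ => Θ.comp (spc_pr nL m)) '' T m,
    {tr (ρ (u * v * u⁻¹ * v⁻¹ : nL.ker)) - 2} ∪ ⋃ m : Fin 3, X m, ?_, ?_, ?_⟩
  · exact Set.finite_iUnion fun m => (hT m).image _
  · exact (Set.finite_singleton _).union (Set.finite_iUnion hX)
  intro k _ R π hS w' hw' ρ' hww hρ
  constructor
  · refine ⟨u, v, fun h0 => ?_⟩
    have hv : ((tr (ρ' (u * v * u⁻¹ * v⁻¹ : nL.ker)) : R) : K) =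
        tr (ρ (u * v * u⁻¹ * v⁻¹ : nL.ker)) := by
      rw [← hρ]
      exact (tr_map R.subtype _).symm
    have hv2 : ((tr (ρ' (u * v * u⁻¹ * v⁻¹ : nL.ker)) - 2 : R) : K) =
        tr (ρ (u * v * u⁻¹ * v⁻¹ : nL.ker)) - 2 := by
      rw [← hv]
      rfl
    have hmem : tr (ρ (u * v * u⁻¹ * v⁻¹ : nL.ker)) - 2 ∈ R := by
      rw [← hv2]
      exact SetLike.coe_mem _
    have h2 := hS.ne _ hmem (Or.inl rfl) (fun h3 => huv (sub_eq_zero.1 h3))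
    have h3 : (⟨tr (ρ (u * v * u⁻¹ * v⁻¹ : nL.ker)) - 2, hmem⟩ : R) =
        tr (ρ' (u * v * u⁻¹ * v⁻¹ : nL.ker)) - 2 := Subtype.ext hv2.symm
    apply h2
    have h4 : tr (SLm π (ρ' (u * v * u⁻¹ * v⁻¹ : nL.ker))) = 2 := h0
    rw [h3, map_sub, ← tr_map, h4, map_ofNat, sub_self]
  · intro m
    have hS' : SpR π (T m) (X m) := by
      refine spc_SpR π (spc_pr nL m) (spc_in nL m) (spc_pr_in nL m) _ _ _ _ ?_ ?_ hS
      · intro Θ hΘ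
        exact Set.mem_iUnion.2 ⟨m, Θ, hΘ, rfl⟩
      · intro x hx
        exact Or.inr (Set.mem_iUnion.2 ⟨m, hx⟩)
    exact h m k R π hS' w' hw' (ρ'.comp (Lm nL (m.val + 1)).subtype) hww (by rw [← hρ]; rfl)

theorem p_spc (hspl : S_spl) : S_spc := by
  intro n hn Λ _ _ nL Ψ K _ _ w hw ρ₁ ρ₂ hC₁ hC₂ l
  obtain ⟨T₁, X₁, hT₁, hX₁, h₁⟩ := spc_one hspl nL Ψ w hw ρ₁ hC₁
  obtain ⟨T₂, X₂, hT₂, hX₂, h₂⟩ := spc_one hspl nL Ψ w hw ρ₂ hC₂
  refine ⟨spc_P nL, inferInstance, spc_fg nL,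
    {(q0 ρ₁).comp (MonoidHom.fst _ _), (q0 ρ₂).comp (MonoidHom.fst _ _)} ∪ (T₁ ∪ T₂),
    {w, 2, (n : K), tr (ρ₁ l) - tr (ρ₂ l)} ∪ (X₁ ∪ X₂), ?_, ?_, ?_⟩
  · exact (Set.toFinite _).union (hT₁.union hT₂)
  · exact (Set.toFinite _).union (hX₁.union hX₂)
  intro k _ R π hS
  have hwR : w ∈ R := hS.mem w (Or.inl (by simp))
  have key : ∀ r : R, (r : K) ∈ ({w, 2, (n : K), tr (ρ₁ l) - tr (ρ₂ l)} : Set K) →
      (r : K) ≠ 0 → π r ≠ 0 := fun r hr h0 => hS.ne _ r.2 (Or.inl hr) h0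
  have hS₁ : SpR π T₁ X₁ := ⟨fun Θ hΘ => hS.hom Θ (Or.inr (Or.inl hΘ)),
    fun x hx => hS.mem x (Or.inr (Or.inl hx)), fun x hx hx' h0 =>
      hS.ne x hx (Or.inr (Or.inl hx')) h0⟩
  have hS₂ : SpR π T₂ X₂ := ⟨fun Θ hΘ => hS.hom Θ (Or.inr (Or.inr hΘ)),
    fun x hx => hS.mem x (Or.inr (Or.inr hx)), fun x hx hx' h0 =>
      hS.ne x hx (Or.inr (Or.inr hx')) h0⟩
  have hex : ∀ ρ : Λ →* SL2 K, (q0 ρ).comp (MonoidHom.fst _ _) ∈
      ({(q0 ρ₁).comp (MonoidHom.fst _ _), (q0 ρ₂).comp (MonoidHom.fst _ _)} ∪ (T₁ ∪ T₂) :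
        Set (spc_P nL →* Q2 K)) → ∃ ρ' : Λ →* SL2 R, (SLm R.subtype).comp ρ' = ρ := by
    intro ρ hρ
    obtain ⟨Θ', h⟩ := hS.hom _ hρ
    refine ⟨(Q2.mH.comp Θ').comp (MonoidHom.inl _ _), ?_⟩
    ext1 g
    have h2 := congrArg Q2.m (DFunLike.congr_fun h (MonoidHom.inl _ _ g))
    exact h2
  obtain ⟨ρ₁', hρ₁⟩ := hex ρ₁ (Or.inl (Or.inl rfl))
  obtain ⟨ρ₂', hρ₂⟩ := hex ρ₂ (Or.inl (Or.inr rfl))
  have hw' : (⟨w, hwR⟩ : R) * ⟨w, hwR⟩ + ⟨w, hwR⟩ + 1 = 0 := Subtype.ext hw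
  refine ⟨?_, ?_, π ⟨w, hwR⟩, map_om_eq π hw', (SLm π).comp ρ₁', (SLm π).comp ρ₂',
    h₁ k R π hS₁ _ hw' ρ₁' rfl hρ₁, h₂ k R π hS₂ _ hw' ρ₂' rfl hρ₂, ?_⟩
  · have h3 := key 2 (by right; left; rfl) two_ne_zero
    rwa [map_ofNat] at h3
  · have h3 := key (n : R) (by right; right; left; rfl)
      (by
        show ((n : R) : K) ≠ 0
        rw [Subring.coe_natCast]
        exact Nat.cast_ne_zero.2 (by omega))
    rwa [map_natCast] at h3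
  · intro hne h0
    have e1 : ((tr (ρ₁' l) : R) : K) = tr (ρ₁ l) := by
      rw [← hρ₁]
      exact (tr_map R.subtype _).symm
    have e2 : ((tr (ρ₂' l) : R) : K) = tr (ρ₂ l) := by
      rw [← hρ₂]
      exact (tr_map R.subtype _).symm
    have e3 : ((tr (ρ₁' l) - tr (ρ₂' l) : R) : K) = tr (ρ₁ l) - tr (ρ₂ l) := by
      rw [← e1, ← e2]
      rfl
    refine key (tr (ρ₁' l) - tr (ρ₂' l)) (by right; right; right; exact e3) ?_ ?_
    · rw [e3]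
      exact sub_ne_zero.2 hne
    · have h4 : tr (SLm π (ρ₁' l)) = tr (SLm π (ρ₂' l)) := h0
      rw [map_sub, ← tr_map, ← tr_map, h4, sub_self]

end Pool.Agent.F8
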