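import Pool.Agent.Lib.MP_305fdd_al.F8.StmNT

set_option autoImplicit false

namespace Pool.Agent.F8

open Pool.Agent.MP_305fdd_al Pool.Agent.Lib.MP_305fdd_al Pool.Agent.F2X
open scoped QuadraticAlgebra

private theorem spt_aux {K k : Type} [Field K] [Field k] {P : Type} [Group P]
    {T : Set (P →* Q2 K)} {X : Set K} {n m : ℕ} {Θ : Fin n → (P →* Q2 K)} {x : Fin m → K}
    (hT : ∀ t ∈ T, ∃ i, Θ i = t) (hX : ∀ t ∈ X, ∃ j, x j = t) (h : Spc K k Θ x) :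
    ∃ (R : Subring K) (π : R →+* k), SpR π T X := by
  obtain ⟨R, π, Θ', hΘ, hR, hπ⟩ := h
  refine ⟨R, π, ?_, ?_, ?_⟩
  · intro t ht
    obtain ⟨i, rfl⟩ := hT t ht
    exact ⟨Θ' i, hΘ i⟩
  · intro t ht
    obtain ⟨j, rfl⟩ := hX t ht
    exact hR j
  · intro t hm ht h0
    obtain ⟨j, rfl⟩ := hX t ht
    exact hπ j hm h0

private theorem spt_enum {α : Type} {S : Set α} (hS : S.Finite) :
    ∃ (n : ℕ) (f : Fin n → α), ∀ t ∈ S, ∃ i, f i = t := by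
  obtain ⟨n, f, _, hf⟩ := hS.fin_param
  refine ⟨n, f, ?_⟩
  intro t ht
  rw [← hf] at ht
  exact ht

theorem p_spt (hspf : S_spf) (hspq : S_spq) : S_spt := by
  intro K _ P _ _ T X hT hX
  obtain ⟨n, Θ, hΘ⟩ := spt_enum hT
  obtain ⟨m, x, hx⟩ := spt_enum hX
  refine ⟨?_, ?_⟩
  · obtain ⟨k, i1, i2, h⟩ := hspf K P n m Θ x
    obtain ⟨R, π, h'⟩ := spt_aux hΘ hx h
    exact ⟨k, i1, i2, R, π, h'⟩
  · intro _
    exact spt_aux hΘ hx (hspq K P n m Θ x)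

end Pool.Agent.F8
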