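import Pool.Agent.Lib.MP_305fdd_al.F8.StmNT

/-!
# [F8N tl] transport of the condition at one level
-/

set_option autoImplicit false

namespace Pool.Agent.F8

open Pool.Agent.MP_305fdd_al Pool.Agent.Lib.MP_305fdd_al Pool.Agent.F2X

/-- powers under homomorphisms -/
theorem tl_pw {L : Type} [Group L] {A B : Type} [Group A] [Group B] (f : A →* B) (a : A)
    (n : L →* Multiplicative ℤ) (g : L) : f ((pw a).comp n g) = (pw (f a)).comp n g := by
  show f (zpowersHom A a (n g)) = zpowersHom B (f a) (n g)
  rw [zpowersHom_apply, zpowersHom_apply, map_zpow]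

theorem p_tl (hcpm : S_cpm) (hsTm : S_sTm) (hwm : S_wm) : S_tl := by
  intro R S _ _ f N L _ Ψ nL w hw ρ c μ _ _ x α τ hC hc hτ hΘ
  refine ⟨c, μ, inferInstance, inferInstance, x, (Units.map f.toMonoidHom).comp α,
    fun i => Units.map f.toMonoidHom (τ i), ?_, ?_⟩
  · exact hcpm R S f N c _ hC hc
  · intro i
    constructor
    · have h1 := congrArg f (hτ i)
      have h2 := hsTm R S f N (rN N w hw) (α.comp (x i))
      rw [map_rN] at h2
      show f (τ i).val * f (τ i).val - sT (rN N (f w) (map_om_eq f hw))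
        ((Units.map f.toMonoidHom).comp (α.comp (x i))) * f (τ i).val + 1 = 0
      rw [h2]
      rw [map_add, map_sub, map_mul, map_mul, map_one, map_zero] at h1
      exact h1
    · obtain ⟨Θ, h1, h2, g, h, j, hj⟩ := hΘ i
      refine ⟨(Q2.map f).comp Θ, ?_, ?_, g, h, ?_⟩
      · rw [← h1]
        rfl
      · ext1 l
        have h3 : (Θ l).t = (α.comp (Ψ.toFun μ (x i)) * (pw (τ i)).comp nL) l :=
          DFunLike.congr_fun h2 l
        show Units.map f.toMonoidHom (Θ l).t = _
        rw [h3, MonoidHom.mul_apply, map_mul, tl_pw]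
        rfl
      · intro h0
        have h4 := congrFun h0 j
        have h5 : Q2.W (Q2.map f (Θ g)) (Q2.map f (Θ h)) j = 0 := h4
        rw [hwm] at h5
        exact hj h5

end Pool.Agent.F8
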