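import Pool.Agent.Lib.MP_305fdd_al.F8.StmNT

/-! The piece `un1`: over finite fields `CN` determines the character. -/

set_option autoImplicit false

namespace Pool.Agent.F8

open Pool.Agent.MP_305fdd_al Pool.Agent.Lib.MP_305fdd_al Pool.Agent.F2X
open scoped QuadraticAlgebra

private theorem un1_sT {N : ℕ} {K : Type} [CommRing K] (ρ : GN N →* SL2 K) (χ : GN N →* Kˣ)
    (τ : Kˣ) : sT ρ (χ * (pw τ).comp (nN N)) = sT ρ χ := by
  unfold sT
  congr 2
  apply List.map_congr_left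
  intro w _
  congr 1
  show ((χ (iN N w)) * (pw τ) (nN N (iN N w))).val = _
  rw [nN_iN, map_one, mul_one]

private theorem un1_t {N : ℕ} {K : Type} [CommRing K] (χ : GN N →* Kˣ) (h : χ (tN N) = 1)
    (τ : Kˣ) : (χ * (pw τ).comp (nN N)) (tN N) = τ := by
  show (χ (tN N)) * (pw τ) (nN N (tN N)) = τ
  rw [h, nN_tN, one_mul]
  simp [pw]

theorem p_un1 (hNI : S_NI) (hn1b : S_n1b) (hirn : S_irn) (hmx : S_mx) (hexT : S_exT)
    (hirF : S_irF) (hmp : S_mp) : S_un1 := by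
  intro n hn Λ _ Φ nL Ψ hC hT k _ _ h2 hnk w hw ρ hCN l
  obtain ⟨hI, hL⟩ := hCN
  set ρ' : GN n →* SL2 k := Φ.invFun _ ρ with hρ'
  have hr : Φ.toFun _ ρ' = ρ := Φ.right_inv _ ρ
  have hI' : Irr (ρ'.comp (iN n)) := by
    apply hirF n Λ Φ nL hC k ρ'
    rw [hr]; exact hI
  choose c μ iμ fμ x α τ hcpl hex using hL
  have hkey : ∀ g, tr (ρ' g) = tr (rN n w hw g) := by
    apply hNI n hn k h2 hnk w hw ρ' hI' c (fun m i => (α m).comp (x m i)) τ (fun m => hcpl m)
    intro m i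
    obtain ⟨hq, he⟩ := hex m i
    constructor
    · apply hn1b
      · refine ⟨ga, gb, ?_⟩
        have h1 := (hirn k (n * (m.val + 1)) w hw).1
        show tr (rN (n * (m.val + 1)) w hw (iN _ (ga * gb * ga⁻¹ * gb⁻¹))) ≠ 2
        rw [h1]
        intro h3
        have h4 : (2 : k) * 2 = 0 := by linear_combination -h3
        rcases mul_eq_zero.1 h4 with h5 | h5 <;> exact h2 h5
      · rw [un1_sT, un1_t _ ((hcpl m).t1 i)]
        exact hq
    · rw [hexT _ _ (Ψ m)]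
      have e1 : (Ψ m).toFun _ (ρ'.comp (inc n (m.val + 1))) =
          ρ.comp (Lm nL (m.val + 1)).subtype := by
        rw [hT.res m _ ρ', hr]
      have e2 := hmx (n * (m.val + 1)) _ (Ψ m) _ (hT.cmp m) k (μ m) (x m i) (α m) (τ m i)
      rw [e1]
      erw [e2]
      exact he
  obtain ⟨g, hg1, hg2⟩ := (hmp _ _ Φ _ _ ρ' (rN n w hw)).2 l
  rw [hg2, ← hkey g, ← hg1, hr]

end Pool.Agent.F8
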