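import Pool.Agent.Lib.MP_305fdd_al.F8.StmNT

/-!
# MP_305fdd_al: uniqueness in characteristic zero
-/

set_option autoImplicit false

namespace Pool.Agent.F8

open Pool.Agent.MP_305fdd_al Pool.Agent.Lib.MP_305fdd_al Pool.Agent.F2X
open scoped QuadraticAlgebra

theorem p_un2 (hun1 : S_un1) (hspc : S_spc) (hspt : S_spt) : S_un2 := by
  intro n hn Λ _ _ Φ nL Ψ hcm htw K _ _ w hw ρ₁ ρ₂ h1 h2 l
  by_contra hne
  obtain ⟨P, iP, fP, T, X, hT, hX, hR⟩ := hspc n (by omega) Λ nL Ψ K w hw ρ₁ ρ₂ h1 h2 l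
  obtain ⟨⟨k, ik, fk, R, π, hπ⟩, -⟩ := hspt K P T X hT hX
  obtain ⟨h2k, hnk, w', hw', ρ₁', ρ₂', c1, c2, htr⟩ := hR k R π hπ
  refine htr hne ?_
  rw [hun1 n hn Λ Φ nL Ψ hcm htw k h2k hnk w' hw' ρ₁' c1 l,
    hun1 n hn Λ Φ nL Ψ hcm htw k h2k hnk w' hw' ρ₂' c2 l]

end Pool.Agent.F8
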