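import Pool.Agent.Lib.MP_305fdd_al.F8.StmNT

/-!
# MP_305fdd_al, block NT, piece val: the values are Eisenstein integers
-/

set_option autoImplicit false

namespace Pool.Agent.F8

open Pool.Agent.MP_305fdd_al Pool.Agent.Lib.MP_305fdd_al Pool.Agent.F2X
open scoped QuadraticAlgebra

noncomputable section

/-- change of the root -/
theorem val_cast {Λ : Type} [Group Λ] {n : ℕ} {nL : Λ →* Multiplicative ℤ}
    {Ψ : ∀ m : Fin 3, NatBij (GN (n * (m.val + 1))) (Lm nL (m.val + 1))}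
    {K : Type} [CommRing K] {w w' : K} (hw : w * w + w + 1 = 0) (hw' : w' * w' + w' + 1 = 0)
    (ρ : Λ →* SL2 K) (h : w' = w) (hc : CN nL Ψ w' hw' ρ) : CN nL Ψ w hw ρ := by
  subst h
  exact hc

/-- a root of `X² + X + 1` in an algebraically closed field -/
theorem val_root (K : Type) [Field K] [IsAlgClosed K] : ∃ w : K, w * w + w + 1 = 0 := by
  have hd : (Polynomial.X ^ 2 + Polynomial.X + 1 : Polynomial K).degree = 2 := by
    rw [show (Polynomial.X ^ 2 + Polynomial.X + 1 : Polynomial K) =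
      Polynomial.C 1 * Polynomial.X ^ 2 + Polynomial.C 1 * Polynomial.X + Polynomial.C 1 by
        simp]
    exact Polynomial.degree_quadratic one_ne_zero
  obtain ⟨w, hw⟩ := IsAlgClosed.exists_root
    (Polynomial.X ^ 2 + Polynomial.X + 1 : Polynomial K) (by rw [hd]; norm_num)
  refine ⟨w, ?_⟩
  have h : w ^ 2 + w + 1 = 0 := by
    simpa [Polynomial.IsRoot.def] using hw
  rw [← h]
  ring

/-- two linear functions which agree at both roots -/
theorem val_two {K : Type} [Field K] [CharZero K] {w a b c d : K} (hw : w * w + w + 1 = 0)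
    (h1 : a + b * w = c + d * w) (h2 : a + b * (-1 - w) = c + d * (-1 - w)) :
    a = c ∧ b = d := by
  have h3 : (b - d) * (2 * w + 1) = 0 := by linear_combination h1 - h2
  have h4 : (2 * w + 1) ≠ 0 := by
    intro h
    have h5 : (2 * w + 1) * (2 * w + 1) = -3 := by linear_combination 4 * hw
    rw [h] at h5
    norm_num at h5
  have h6 : b = d := by
    rcases mul_eq_zero.mp h3 with h | h
    · exact sub_eq_zero.mp h
    · exact absurd h h4
  refine ⟨?_, h6⟩
  rw [h6] at h1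
  exact add_right_cancel h1

theorem p_val (hun2 : S_un2) (hfct : S_fct) (hCNp : S_CNp) (hgl2 : S_gl2) (hemb : S_emb)
    (hint : S_int) : S_val := by
  intro n hn Λ _ _ Φ nL Ψ hs hcm htw w hw s hCN r hr l
  have h1 : ∀ g : AlgebraicClosure ℚ ≃ₐ[ℚ] AlgebraicClosure ℚ, g w = w →
      g (tr (s l)) = tr (s l) := by
    intro g hg
    have h := hfct _ _ (g : AlgebraicClosure ℚ →+* AlgebraicClosure ℚ) n Λ nL Ψ w hw s hCN
    have h' := val_cast hw _ _ hg h
    have h2 := hun2 n hn Λ Φ nL Ψ hcm htw _ w hw _ _ h' hCN l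
    rw [MonoidHom.comp_apply, tr_map] at h2
    exact h2
  obtain ⟨q₁, q₂, hx⟩ := hgl2 w (tr (s l)) hw h1
  have h2 : ∀ (p : ℕ) [Fact p.Prime] (w' : Fl p), w' * w' + w' + 1 = 0 →
      (q₁ : Fl p) + (q₂ : Fl p) * w' = iz p (tr (r p l)).re + iz p (tr (r p l)).im * w' := by
    intro p _ w' hw'
    obtain ⟨ι, hι⟩ := hemb p w hw w' hw'
    have h := hfct _ _ ι n Λ nL Ψ w hw s hCN
    have h' := val_cast hw' _ _ hι h
    have h3 := hun2 n hn Λ Φ nL Ψ hcm htw _ w' hw' _ _ h'
      (hCNp n (by omega) Λ Φ nL Ψ hs hcm htw p (r p) (hr p) w' hw') l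
    rw [MonoidHom.comp_apply, tr_map, MonoidHom.comp_apply, tr_map, jw_apply, hx, map_add, map_mul,
      hι, eq_ratCast, eq_ratCast, map_ratCast, map_ratCast] at h3
    exact h3
  have h3 : ∀ (p : ℕ) [Fact p.Prime], ((q₁ : ℚ_[p]) = ((tr (r p l)).re : ℚ_[p])) ∧
      ((q₂ : ℚ_[p]) = ((tr (r p l)).im : ℚ_[p])) := by
    intro p _
    obtain ⟨w', hw'⟩ := val_root (Fl p)
    have ha := h2 p w' hw'
    have hb := h2 p (-1 - w') (by linear_combination hw')
    obtain ⟨hc, hd⟩ := val_two hw' ha hb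
    constructor
    · apply (algebraMap ℚ_[p] (Fl p)).injective
      rw [map_ratCast]
      exact hc
    · apply (algebraMap ℚ_[p] (Fl p)).injective
      rw [map_ratCast]
      exact hd
  obtain ⟨a₁, ha₁⟩ := hint q₁ (fun p _ => ⟨_, (h3 p).1⟩)
  obtain ⟨a₂, ha₂⟩ := hint q₂ (fun p _ => ⟨_, (h3 p).2⟩)
  refine ⟨⟨a₁, a₂⟩, ?_, ?_⟩
  · rw [hx, ha₁, ha₂]
    change _ = (Int.castRingHom _ a₁) + (Int.castRingHom _ a₂) * w
    simp
  · intro p _
    have h4 := (h3 p).1
    have h5 := (h3 p).2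
    rw [ha₁] at h4
    rw [ha₂] at h5
    have h6 : ((a₁ : ℤ) : ℤ_[p]) = (tr (r p l)).re := by
      apply PadicInt.ext
      rw [← h4, PadicInt.coe_intCast, Rat.cast_intCast]
    have h7 : ((a₂ : ℤ) : ℤ_[p]) = (tr (r p l)).im := by
      apply PadicInt.ext
      rw [← h5, PadicInt.coe_intCast, Rat.cast_intCast]
    apply QuadraticAlgebra.ext
    · change _ = Int.castRingHom ℤ_[p] a₁
      rw [← h6]
      rfl
    · change _ = Int.castRingHom ℤ_[p] a₂
      rw [← h7]
      rfl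

end

end Pool.Agent.F8
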