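import Pool.Agent.Lib.MP_305fdd_al.F8.StmNT

/-!
# MP_305fdd_al, cyclic covers of the figure-eight knot complement, block NT: piece cgu
-/

set_option autoImplicit false

namespace Pool.Agent.F8

open Pool.Agent.MP_305fdd_al Pool.Agent.Lib.MP_305fdd_al Pool.Agent.F2X

private theorem cgu_lift (m : ℕ) {A : Type} [Group A] (a : A) (ha : a ^ m = 1) :
    ∃ f : Multiplicative (ZMod m) →* A, ∀ k : ℤ, f (Multiplicative.ofAdd (k : ZMod m)) = a ^ k := by
  let g : ℤ →+ Additive A := AddMonoidHom.mk' (fun k => Additive.ofMul (a ^ k)) (by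
    intro x y
    rw [zpow_add]; rfl)
  have hg : g (m : ℤ) = 0 := by
    show Additive.ofMul (a ^ (m : ℤ)) = 0
    rw [zpow_natCast, ha]; rfl
  let h : ZMod m →+ Additive A := ZMod.lift m ⟨g, hg⟩
  refine ⟨⟨⟨fun x => Additive.toMul (h (Multiplicative.toAdd x)), ?_⟩, ?_⟩, ?_⟩
  · show Additive.toMul (h (Multiplicative.toAdd 1)) = 1
    rw [toAdd_one, map_zero]; rfl
  · intro x y
    show Additive.toMul (h (Multiplicative.toAdd (x * y))) = _
    rw [toAdd_mul, map_add]; rfl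
  · intro k
    show Additive.toMul (h ((k : ZMod m))) = a ^ k
    have : h (k : ZMod m) = g k := ZMod.lift_coe m ⟨g, hg⟩ k
    rw [this]; rfl

theorem p_cgu : S_cgu := by
  intro G Λ _ _ Φ nG nL hC A _ _ a
  have hk : NeZero (Nat.card A) := ⟨Nat.card_pos.ne'⟩
  obtain ⟨f, hf⟩ := cgu_lift (Nat.card A) a pow_card_eq_one'
  have hpw : pw a = f.comp (redZ (Nat.card A)) := by
    refine MonoidHom.ext fun k => ?_
    obtain ⟨k, rfl⟩ := Multiplicative.ofAdd.surjective k
    show pw a _ = f (redZ _ _)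
    rw [pw_ofAdd, redZ_ofAdd, hf]
  rw [hpw, MonoidHom.comp_assoc, Φ.nat, hC (Nat.card A), MonoidHom.comp_assoc]

end Pool.Agent.F8
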