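import Pool.Agent.Lib.MP_305fdd_al.F8.StmNT

/-!
A representation over the algebraic closure of the rational numbers (MP_305fdd_al, F8, block NT).
-/

set_option autoImplicit false

namespace Pool.Agent.F8

open Pool.Agent.MP_305fdd_al Pool.Agent.Lib.MP_305fdd_al Pool.Agent.F2X
open scoped QuadraticAlgebra

noncomputable section

private theorem CNq_root (K : Type) [Field K] [CharZero K] [IsAlgClosed K] :
    ∃ w : K, w * w + w + 1 = 0 := by
  obtain ⟨s, hs⟩ := IsAlgClosed.exists_pow_nat_eq (-3 : K) (n := 2) (by norm_num)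
  refine ⟨(s - 1) / 2, ?_⟩
  have h2 : (2 : K) ≠ 0 := by norm_num
  field_simp
  linear_combination hs

/-- [F8N CNq] -/
theorem p_CNq (hCNp : S_CNp) (hrL : S_rL) (hspc : S_spc) (hspt : S_spt) : S_CNq := by
  intro n hn Λ _ _ Φ nL Ψ hsur hcm htw
  haveI : Fact (Nat.Prime 2) := ⟨Nat.prime_two⟩
  obtain ⟨w, hw⟩ := CNq_root (Fl 2)
  obtain ⟨r, hr⟩ := hrL n Λ Φ 2
  have hC := hCNp n hn Λ Φ nL Ψ hsur hcm htw 2 r hr w hw
  obtain ⟨P, iP, iF, T, X, hT, hX, h⟩ := hspc n hn Λ nL Ψ (Fl 2) w hw _ _ hC hC 1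
  obtain ⟨-, h2⟩ := hspt (Fl 2) P T X hT hX
  obtain ⟨R, π, hS⟩ := h2 inferInstance
  obtain ⟨-, -, w', hw', ρ₁', ρ₂', h1, -, -⟩ := h (AlgebraicClosure ℚ) R π hS
  exact ⟨w', hw', ρ₁', h1⟩

end

end Pool.Agent.F8
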