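import Pool.Agent.Lib.MP_305fdd_al.F8.StmNT

set_option autoImplicit false

namespace Pool.Agent.F8

open Pool.Agent.MP_305fdd_al Pool.Agent.Lib.MP_305fdd_al Pool.Agent.F2X
open scoped QuadraticAlgebra

/-- integral multiples -/
theorem p_ig : S_ig := by
  intro p _ b z
  classical
  haveI : Algebra.IsAlgebraic ℤ_[p] (Fl p) :=
    (IsFractionRing.comap_isAlgebraic_iff (A := ℤ_[p]) (K := ℚ_[p]) (C := Fl p)).mpr inferInstance
  obtain ⟨a, ha, h⟩ := Algebra.IsAlgebraic.exists_integral_multiples ℤ_[p]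
    (Finset.univ.image z)
  have e : (algebraMap ℤ_[p] (Fl p)) = iz p := by
    ext x
    rw [IsScalarTower.algebraMap_apply ℤ_[p] ℚ_[p] (Fl p)]
    rfl
  refine ⟨a, ha, fun i => ?_⟩
  have h1 := h (z i) (Finset.mem_image_of_mem _ (Finset.mem_univ i))
  rw [Algebra.smul_def] at h1
  rw [← e]
  exact h1

end Pool.Agent.F8
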