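import Pool.Agent.Lib.MP_305fdd_al.F8.StmNT

/-!
# MP_305fdd_al, cyclic covers of the figure-eight knot complement: [F8N rL]

The limit of the matched representations.
-/

set_option autoImplicit false

namespace Pool.Agent.F8

open Pool.Agent.MP_305fdd_al Pool.Agent.Lib.MP_305fdd_al Pool.Agent.F2X
open scoped QuadraticAlgebra

/-- the section `m ↦ (1, m, 0)` -/
private def rL_sec (R : Type) [CommRing R] : SL2 R →* Q2 R where
  toFun m := ⟨1, m, 0⟩
  map_one' := rfl
  map_mul' x y := by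
    apply Q2.ext
    · simp
    · simp
    · simp

private theorem rL_mH_sec (R : Type) [CommRing R] :
    Q2.mH.comp (rL_sec R) = MonoidHom.id _ := rfl

private theorem rL_map_sec {R S : Type} [CommRing R] [CommRing S] (f : R →+* S) :
    (Q2.map f).comp (rL_sec R) = (rL_sec S).comp (SLm f) := by
  ext1 m
  apply Q2.ext
  · show Units.map f.toMonoidHom 1 = 1
    simp
  · rfl
  · ext i
    show f 0 = 0
    simp

private theorem rL_mH_map {R S : Type} [CommRing R] [CommRing S] (f : R →+* S) :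
    Q2.mH.comp (Q2.map f) = (SLm f).comp Q2.mH := rfl

private theorem rL_map_rE (n : ℕ) {R S : Type} [CommRing R] [CommRing S] (f : R →+* S) :
    (SLm (Qd.map (-1) f)).comp (rE n R) = rE n S := by
  have h := map_rN n (Qd.map (-1) f) (om R) (om_eq R)
  have h2 : ∀ (w : Es S) (hw : w * w + w + 1 = 0), w = om S → rN n w hw = rE n S := by
    intro w hw e
    subst e
    rfl
  exact h.trans (h2 _ _ (Qd.map_th (-1) f))

theorem p_rL (hlz : S_lz) (hlq : S_lq) (hlh : S_lh) : S_rL := by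
  intro n Λ _ Φ p _
  have hl1 : IsLim (Es ℤ_[p]) (fun k => Es (ZMod (p ^ k)))
      (fun k => Qd.map (-1) (PadicInt.toZModPow k)) (fun k => Qd.map (-1) (tz p k)) :=
    hlq (-1) ℤ_[p] _ _ _ (hlz p)
  obtain ⟨Θ', hΘ'⟩ := hlh (Es ℤ_[p]) (fun k => Es (ZMod (p ^ k))) _ _ hl1 Λ
    (fun k => Φ.toFun _ ((rL_sec _).comp (rE n (ZMod (p ^ k))))) (by
      intro k
      show (Q2.map (Qd.map (-1) (tz p k))).comp
        (Φ.toFun _ ((rL_sec _).comp (rE n (ZMod (p ^ (k + 1)))))) =
        Φ.toFun _ ((rL_sec _).comp (rE n (ZMod (p ^ k))))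
      rw [← Φ.nat, ← MonoidHom.comp_assoc, rL_map_sec, MonoidHom.comp_assoc, rL_map_rE])
  refine ⟨Q2.mH.comp Θ', ?_⟩
  intro k
  have h1 := congrArg (fun f => Q2.mH.comp f) (hΘ' k)
  rw [← MonoidHom.comp_assoc, rL_mH_map, MonoidHom.comp_assoc] at h1
  rw [h1, ← Φ.nat, ← MonoidHom.comp_assoc, rL_mH_sec, MonoidHom.id_comp]

end Pool.Agent.F8
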